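import Pool.Agent.H255R3.PCG.Table

/-!
# Completeness of the reduction
-/

namespace Pool.Agent.H255R3.PCG

open Pool.Agent.NPC Pool.Agent.NPC.R671

set_option maxRecDepth 20000 in
theorem len_P : ∀ s r : Bool, (posP s r).1.length = 5 ∧ -15 < (posP s r).2 := by decide

set_option maxRecDepth 20000 in
theorem len_Q : ∀ s r : Bool, (posQ s r).1.length = 5 ∧ -15 < (posQ s r).2 := by decide

set_option maxRecDepth 20000 in
theorem len_C : ∀ (s t : Bool × Bool) (x : Sub), (posC s t x).1.length = 5 ∧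
    -15 < (posC s t x).2 := by decide

theorem val_comm (p q : List ℕ × ℤ) : val p q = val q p := by
  unfold val
  rw [lcp_comm]
  ring

theorem okE_comm (p q : List ℕ × ℤ) : okE p q = okE q p := by
  unfold okE
  rw [val_comm]

theorem okS_comm (p q : List ℕ × ℤ) : okS p q = okS q p := by
  unfold okS
  rw [val_comm]

/-- The position of a vertex, given an assignment `σ` and for each clause the chosen position. -/
def pos (σ : ℕ → Bool) (ch : ℕ → Bool × Bool) : Lab → List ℕ × ℤ
  | (Sum.inl (s, b), j, _) => posP s (b == (if s then (ch j).2 else (ch j).1))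
  | (Sum.inr (Sum.inl (s, b)), v, _) => posQ s (b == (if s then false else !σ v))
  | (Sum.inr (Sum.inr (x, t)), j, l) =>
    posC (x.1 == (ch j).1, x.2.1 == (ch j).2) (l.1 == !σ l.2, x.2.2 == false) t

theorem pos_len (σ : ℕ → Bool) (ch : ℕ → Bool × Bool) (u : Lab) :
    (pos σ ch u).1.length = 5 ∧ -15 < (pos σ ch u).2 := by
  rcases u with ⟨⟨s, b⟩ | ⟨s, b⟩ | ⟨x, t⟩, j, l⟩
  · exact len_P _ _
  · exact len_Q _ _
  · exact len_C _ _ _

theorem beq_not (b c : Bool) : ((!b) == c) = !(b == c) := by cases b <;> cases c <;> rfl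

theorem ne_bool {b b' : Bool} (h : b ≠ b') : b' = !b := by cases b <;> cases b' <;> simp_all

section

variable {φ : List (Lit ℕ × Lit ℕ × Lit ℕ)} {σ : ℕ → Bool} {ch : ℕ → Bool × Bool}

/-- The labels of a chain determine the literal, and the two ends are not both chosen. -/
theorem state_ok (hch : ∀ (j : ℕ) (h : j < φ.length), σ (litAt φ[j] (ch j)).2 = (litAt φ[j] (ch j)).1)
    {x : Bool × Bool × Bool} {t : Sub} {j : ℕ} {l : Lit ℕ}
    (hu : ((Sum.inr (Sum.inr (x, t)), j, l) : Lab) ∈ labs φ) :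
    (∃ h : j < φ.length, l = litAt (φ[j]'h) (x.1, x.2.1)) ∧
    okState (x.1 == (ch j).1, x.2.1 == (ch j).2) (l.1 == !σ l.2, x.2.2 == false) = true := by
  rcases mem_labs.1 hu with ⟨j', hj, ⟨p, hp⟩ | ⟨y, t', hy⟩⟩ | ⟨v, hv, p, hp⟩
  · simp [labP] at hp
  · simp only [labC, Prod.mk.injEq, Sum.inr.injEq] at hy
    obtain ⟨⟨rfl, rfl⟩, rfl, rfl⟩ := hy
    refine ⟨⟨hj, rfl⟩, ?_⟩
    unfold okState
    rw [Bool.not_eq_true']
    by_contra hcon
    rw [Bool.not_eq_false] at hcon
    simp only [Bool.and_eq_true, beq_iff_eq] at hcon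
    obtain ⟨⟨⟨h1, h2⟩, h3⟩, h4⟩ := hcon
    have h5 := hch j hj
    have h6 : ch j = (x.1, x.2.1) := Prod.ext h1.symm h2.symm
    rw [h6] at h5
    rw [h5] at h3
    revert h3
    generalize (litAt φ[j] (x.1, x.2.1)).1 = z
    cases z <;> simp
  · simp [labQ] at hp

theorem edge1_ok (hch : ∀ (j : ℕ) (h : j < φ.length), σ (litAt φ[j] (ch j)).2 = (litAt φ[j] (ch j)).1)
    {u v : Lab} (hu : u ∈ labs φ) (hv : v ∈ labs φ) (he : edge1 u v = true) :
    okE (pos σ ch u) (pos σ ch v) = true := by
  unfold edge1 at he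
  rw [Bool.or_eq_true, Bool.and_eq_true, Bool.and_eq_true, decide_eq_true_eq,
    decide_eq_true_eq] at he
  rcases he with ⟨hj, he⟩ | ⟨hj, he⟩
  · rcases u with ⟨⟨s, b⟩ | ⟨s, b⟩ | ⟨x, t⟩, j, l⟩
    · rcases v with ⟨⟨s', b'⟩ | ⟨s', b'⟩ | ⟨x', t'⟩, j', l'⟩
      · simp only [tabE, Bool.and_eq_true, beq_iff_eq, bne_iff_ne] at he
        simp only at hj
        obtain ⟨rfl, hb⟩ := he
        subst hj
        rw [ne_bool hb]
        simp only [pos, beq_not]
        exact check_P _ _
      · simp [tabE] at he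
      · simp [tabE] at he
    · rcases v with ⟨⟨s', b'⟩ | ⟨s', b'⟩ | ⟨x', t'⟩, j', l'⟩
      · simp [tabE] at he
      · simp only [tabE, Bool.and_eq_true, beq_iff_eq, bne_iff_ne] at he
        simp only at hj
        obtain ⟨rfl, hb⟩ := he
        subst hj
        rw [ne_bool hb]
        simp only [pos, beq_not]
        exact check_Q _ _
      · simp [tabE] at he
    · obtain ⟨⟨hjl, hl⟩, hok⟩ := state_ok hch hu
      rcases v with ⟨⟨s', b'⟩ | ⟨s', b'⟩ | ⟨x', t'⟩, j', l'⟩
      · rcases t with ⟨w, i⟩ | ⟨w, s, b⟩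
        · simp only [tabE, Bool.and_eq_true, beq_iff_eq, Bool.not_eq_true'] at he
          simp only at hj
          obtain ⟨rfl, rfl⟩ := he
          subst hj
          have := check_CP _ _ i s' hok
          cases s' <;> exact this
        · simp [tabE] at he
      · rcases t with ⟨w, i⟩ | ⟨w, s, b⟩ <;> simp [tabE] at he
      · obtain ⟨⟨hjl', hl'⟩, hok'⟩ := state_ok hch hv
        simp only at hj
        subst hj
        rcases t with ⟨w, i⟩ | ⟨w, s, b⟩
        · rcases t' with ⟨w', i'⟩ | ⟨w', s', b'⟩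
          · simp only [tabE, Bool.and_eq_true, beq_iff_eq, bne_iff_ne] at he
            obtain ⟨⟨rfl, hw⟩, rfl⟩ := he
            rw [← hl] at hl'
            subst hl'
            rw [ne_bool hw]
            exact check_qr _ _ w i hok
          · simp [tabE] at he
        · rcases t' with ⟨w', i'⟩ | ⟨w', s', b'⟩
          · simp only [tabE, Bool.and_eq_true, beq_iff_eq] at he
            obtain ⟨rfl, rfl⟩ := he
            rw [← hl] at hl'
            subst hl'
            exact check_Tq _ _ w s b w' hok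
          · simp only [tabE, Bool.and_eq_true, beq_iff_eq, bne_iff_ne] at he
            obtain ⟨⟨⟨rfl, rfl⟩, rfl⟩, hb⟩ := he
            rw [← hl] at hl'
            subst hl'
            rw [ne_bool hb]
            exact check_T _ _ w s b hok
  · rcases u with ⟨⟨s, b⟩ | ⟨s, b⟩ | ⟨x, t⟩, j, l⟩
    · simp [tabF] at he
    · simp [tabF] at he
    · obtain ⟨⟨hjl, hl⟩, hok⟩ := state_ok hch hu
      rcases t with ⟨w, i⟩ | ⟨w, s, b⟩
      · rcases v with ⟨⟨s', b'⟩ | ⟨s', b'⟩ | ⟨x', t'⟩, j', l'⟩
        · simp [tabF] at he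
        · simp only [tabF, Bool.and_eq_true, beq_iff_eq] at he
          simp only at hj
          obtain ⟨rfl, rfl⟩ := he
          subst hj
          have := check_CQ _ _ i s' hok
          cases s' <;> exact this
        · simp [tabF] at he
      · simp [tabF] at he

theorem edge_ok (hch : ∀ (j : ℕ) (h : j < φ.length), σ (litAt φ[j] (ch j)).2 = (litAt φ[j] (ch j)).1)
    {u v : Lab} (hu : u ∈ labs φ) (hv : v ∈ labs φ) (he : edge u v = true) :
    okE (pos σ ch u) (pos σ ch v) = true := by
  unfold edge at he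
  rw [Bool.or_eq_true] at he
  rcases he with he | he
  · exact edge1_ok hch hu hv he
  · rw [okE_comm]
    exact edge1_ok hch hv hu he

theorem nonedge1_ok (hch : ∀ (j : ℕ) (h : j < φ.length), σ (litAt φ[j] (ch j)).2 = (litAt φ[j] (ch j)).1)
    {u v : Lab} (hu : u ∈ labs φ) (hv : v ∈ labs φ) (hj : u.2.1 = v.2.1)
    (he : tabS u.1 v.1 = true) : okS (pos σ ch u) (pos σ ch v) = true := by
  rcases u with ⟨⟨s, b⟩ | ⟨s, b⟩ | ⟨x, t⟩, j, l⟩
  · rcases v with ⟨⟨s', b'⟩ | ⟨s', b'⟩ | ⟨x', t'⟩, j', l'⟩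
    · simp only [tabS, bne_iff_ne] at he
      simp only at hj
      subst hj
      rw [ne_bool he]
      exact check_SP _ _ _
    · simp [tabS] at he
    · simp [tabS] at he
  · rcases v with ⟨⟨s', b'⟩ | ⟨s', b'⟩ | ⟨x', t'⟩, j', l'⟩
    · simp [tabS] at he
    · simp only [tabS, bne_iff_ne] at he
      simp only at hj
      subst hj
      rw [ne_bool he]
      exact check_SQ _ _ _
    · simp [tabS] at he
  · obtain ⟨⟨hjl, hl⟩, hok⟩ := state_ok hch hu
    rcases v with ⟨⟨s', b'⟩ | ⟨s', b'⟩ | ⟨x', t'⟩, j', l'⟩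
    · rcases t with ⟨w, i⟩ | ⟨w, s, b⟩ <;> simp [tabS] at he
    · rcases t with ⟨w, i⟩ | ⟨w, s, b⟩ <;> simp [tabS] at he
    · obtain ⟨⟨hjl', hl'⟩, hok'⟩ := state_ok hch hv
      simp only at hj
      subst hj
      rcases t with ⟨w, i⟩ | ⟨w, s, b⟩
      · rcases t' with ⟨w', i'⟩ | ⟨w', s', b'⟩
        · simp only [tabS, Bool.and_eq_true, beq_iff_eq, bne_iff_ne] at he
          obtain ⟨rfl, hi⟩ := he
          rw [← hl] at hl'
          subst hl'
          rw [ne_bool hi]
          exact check_Sq _ _ w w' i hok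
        · simp [tabS] at he
      · rcases t' with ⟨w', i'⟩ | ⟨w', s', b'⟩
        · simp [tabS] at he
        · simp only [tabS, Bool.and_eq_true, beq_iff_eq, bne_iff_ne] at he
          obtain ⟨⟨rfl, rfl⟩, hs⟩ := he
          rw [← hl] at hl'
          subst hl'
          rw [ne_bool hs]
          exact check_ST _ _ w s b b' hok

theorem nonedge_ok (hch : ∀ (j : ℕ) (h : j < φ.length), σ (litAt φ[j] (ch j)).2 = (litAt φ[j] (ch j)).1)
    {u v : Lab} (hu : u ∈ labs φ) (hv : v ∈ labs φ) (he : nonedge u v = true) :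
    okS (pos σ ch u) (pos σ ch v) = true := by
  unfold nonedge at he
  rw [Bool.and_eq_true, Bool.or_eq_true, decide_eq_true_eq] at he
  rcases he with ⟨hj, he | he⟩
  · exact nonedge1_ok hch hu hv hj he
  · rw [okS_comm]
    exact nonedge1_ok hch hv hu hj.symm he

end

theorem lcp_concat {x y : List ℕ} (h : x.length = y.length) {a b : ℕ} (hab : a ≠ b) :
    lcp (x ++ [a]) (y ++ [b]) = lcp x y := by
  induction x generalizing y with
  | nil =>
    cases y with
    | nil => simp [lcp, hab]
    | cons c y => simp at h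
  | cons c x ih =>
    cases y with
    | nil => simp at h
    | cons c' y =>
      simp only [List.cons_append]
      unfold lcp
      rw [ih (by simpa using h)]

theorem lcp_length_le (x y : List ℕ) : (lcp x y).length ≤ x.length := by
  induction x generalizing y with
  | nil => cases y <;> simp [lcp]
  | cons a x ih =>
    cases y with
    | nil => simp [lcp]
    | cons b y =>
      unfold lcp
      split_ifs
      · simpa using ih y
      · simp

/-- Positions of a finite list of vertices give a weighted tree. -/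
theorem exists_tree {n : ℕ} (p : Fin n → List ℕ × ℤ) (h5 : ∀ i, (p i).1.length = 5)
    (hh : ∀ i, -15 < (p i).2) (hroot : ∃ i j, (p i).1.head? ≠ (p j).1.head?) :
    ∃ T : WTree (Fin n), ∀ i j, i ≠ j → T.dist i j = 40 + (val (p i) (p j) : ℝ) := by
  let L : Fin n → List ℕ := fun i => (p i).1 ++ [i.1]
  let hf : ℕ → ℝ := fun k => if h : k < n then ((p ⟨k, h⟩).2 : ℝ) else 0
  let g : List ℕ → ℝ := fun l => if l.length ≤ 5 then (l.length : ℝ) else 20 + hf (l.getLast?.getD 0)
  have hlen : ∀ v, (L v).length = 5 + 1 := fun v => by simp [L, h5]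
  have hgL : ∀ v, g (L v) = 20 + ((p v).2 : ℝ) := by
    intro v
    have h1 : ¬ (L v).length ≤ 5 := by rw [hlen]; omega
    have h2 : (L v).getLast?.getD 0 = v.1 := by simp [L]
    simp only [g, if_neg h1, h2, hf, dif_pos v.2]
  obtain ⟨T, hT⟩ := exists_wtree L (K := 5) hlen
    (by
      intro i j hij
      have h1 : (L i).getLast? = (L j).getLast? := by rw [hij]
      simp only [L, List.getLast?_append, List.getLast?_singleton, Option.some_or,
        Option.some.injEq] at h1
      exact Fin.ext h1)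
    (by
      obtain ⟨i, j, hij⟩ := hroot
      refine ⟨i, j, ?_⟩
      have h1 := h5 i
      have h2 := h5 j
      simp only [L]
      cases hi : (p i).1 with
      | nil => rw [hi] at h1; simp at h1
      | cons a l =>
        cases hj : (p j).1 with
        | nil => rw [hj] at h2; simp at h2
        | cons b l' =>
          rw [hi, hj] at hij
          simpa using hij) g
    (by
      intro l hl ⟨v, hv⟩
      have h1 := hv.length_le
      rw [hlen] at h1
      by_cases h6 : l.length = 6
      · have h7 : l = L v := hv.eq_of_length (by rw [h6, hlen])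
        subst h7
        have h8 : (L v).dropLast.length ≤ 5 := by rw [List.length_dropLast, hlen]
        rw [hgL]
        simp only [g, if_pos h8]
        have h9 : ((L v).dropLast.length : ℝ) ≤ 5 := by exact_mod_cast h8
        have h10 : (-15 : ℝ) < ((p v).2 : ℝ) := by exact_mod_cast hh v
        linarith
      · have h7 : l.length ≤ 5 := by omega
        have h8 : l.dropLast.length ≤ 5 := by rw [List.length_dropLast]; omega
        have h9 : l.dropLast.length < l.length := by
          have := List.length_pos_iff.2 hl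
          rw [List.length_dropLast]
          omega
        simp only [g, if_pos h7, if_pos h8]
        exact_mod_cast h9)
  refine ⟨T, fun i j hij => ?_⟩
  rw [hT, hgL, hgL]
  have h1 : lcp (L i) (L j) = lcp (p i).1 (p j).1 :=
    lcp_concat (by rw [h5, h5]) (fun h => hij (Fin.ext h))
  have h2 : (lcp (p i).1 (p j).1).length ≤ 5 := (lcp_length_le _ _).trans (h5 i).le
  rw [h1]
  simp only [g, if_pos h2]
  unfold val
  push_cast
  ring

/-- A satisfiable formula gives a weighted tree. -/
theorem complete {φ : List (Lit ℕ × Lit ℕ × Lit ℕ)} (hne : φ ≠ []) (hsat : SAT3 φ) :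
    ∃ T : WTree (Fin (labs φ).length), ∀ i j, i ≠ j →
      (edge (labs φ)[i] (labs φ)[j] = true → 39 ≤ T.dist i j ∧ T.dist i j ≤ 41) ∧
      (nonedge (labs φ)[i] (labs φ)[j] = true → T.dist i j ≤ 38 ∨ 42 ≤ T.dist i j) := by
  obtain ⟨σ, hσ⟩ := hsat
  have hch' : ∀ j : ℕ, ∃ p : Bool × Bool, ∀ h : j < φ.length,
      σ (litAt φ[j] p).2 = (litAt φ[j] p).1 := by
    intro j
    by_cases h : j < φ.length
    · rcases hσ φ[j] (List.getElem_mem h) with h1 | h1 | h1
      · exact ⟨(false, false), fun _ => h1⟩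
      · exact ⟨(false, true), fun _ => h1⟩
      · exact ⟨(true, false), fun _ => h1⟩
    · exact ⟨(false, false), fun h' => absurd h' h⟩
  choose ch hch using hch'
  have hpos : 0 < φ.length := List.length_pos_iff.2 hne
  obtain ⟨T, hT⟩ := exists_tree (fun i : Fin (labs φ).length => pos σ ch (labs φ)[i])
    (fun i => (pos_len σ ch _).1) (fun i => (pos_len σ ch _).2)
    (by
      obtain ⟨i, hi, hi'⟩ := List.getElem_of_mem (mem_labs.2 (Or.inl ⟨0, hpos, Or.inl
        ⟨(false, (ch 0).1), rfl⟩⟩) : labP 0 (false, (ch 0).1) ∈ labs φ)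
      obtain ⟨j, hj, hj'⟩ := List.getElem_of_mem (mem_labs.2 (Or.inl ⟨0, hpos, Or.inl
        ⟨(true, (ch 0).2), rfl⟩⟩) : labP 0 (true, (ch 0).2) ∈ labs φ)
      refine ⟨⟨i, hi⟩, ⟨j, hj⟩, ?_⟩
      simp only [Fin.getElem_fin]
      rw [hi', hj']
      simp [labP, pos, posP])
  refine ⟨T, fun i j hij => ⟨fun he => ?_, fun he => ?_⟩⟩
  · have h1 := edge_ok hch (List.getElem_mem i.2) (List.getElem_mem j.2) he
    unfold okE at h1
    rw [decide_eq_true_eq] at h1
    obtain ⟨h2, h3⟩ := h1
    have h4 : (-1 : ℝ) ≤ (val (pos σ ch (labs φ)[i]) (pos σ ch (labs φ)[j]) : ℝ) := by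
      exact_mod_cast h2
    have h5 : (val (pos σ ch (labs φ)[i]) (pos σ ch (labs φ)[j]) : ℝ) ≤ 1 := by
      exact_mod_cast h3
    rw [hT i j hij]
    constructor <;> linarith
  · have h1 := nonedge_ok hch (List.getElem_mem i.2) (List.getElem_mem j.2) he
    unfold okS at h1
    rw [decide_eq_true_eq] at h1
    rw [hT i j hij]
    rcases h1 with h2 | h2
    · left
      have h4 : (val (pos σ ch (labs φ)[i]) (pos σ ch (labs φ)[j]) : ℝ) ≤ -2 := by
        exact_mod_cast h2
      linarith
    · right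
      have h4 : (2 : ℝ) ≤ (val (pos σ ch (labs φ)[i]) (pos σ ch (labs φ)[j]) : ℝ) := by
        exact_mod_cast h2
      linarith

end Pool.Agent.H255R3.PCG
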