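import Pool.Agent.H671R2.GraphEnc

/-!
# Pairwise compatibility graphs: definitions
-/

namespace Pool.Agent.H255R3.PCG

open Pool.Agent.NPC Pool.Agent.NPC.R671

/-- A finite tree whose edges carry positive real weights, with its leaves (the vertices of degree
one) identified with the elements of `V`. -/
structure WTree (V : Type) where
  /-- the vertices of the tree -/
  W : Type
  /-- there are finitely many -/
  finite : Finite W
  /-- the edges of the tree -/
  G : SimpleGraph W
  /-- it is a tree -/
  isTree : G.IsTree
  /-- the weight function on the edges -/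
  wt : Sym2 W → ℝ
  /-- the weights are positive -/
  wt_pos : ∀ e ∈ G.edgeSet, 0 < wt e
  /-- the leaves are identified with `V` -/
  leaf : V ≃ {x : W // ∃! y, G.Adj x y}

/-- The unique path between two vertices of a tree. -/
noncomputable def treePath {W : Type} {G : SimpleGraph W} (h : G.IsTree) (x y : W) : G.Walk x y :=
  (h.existsUnique_path x y).choose

/-- The distance of the leaves `u` and `v`: the sum of the weights of the edges of the unique path
between them. -/
noncomputable def WTree.dist {V : Type} (T : WTree V) (u v : V) : ℝ :=
  ((treePath T.isTree (T.leaf u).1 (T.leaf v).1).edges.map T.wt).sum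

/-- The pairwise compatibility graph `PCG(T, a, b)`. -/
noncomputable def pcg {V : Type} (T : WTree V) (a b : ℝ) : SimpleGraph V :=
  SimpleGraph.fromRel fun u v => a ≤ T.dist u v ∧ T.dist u v ≤ b

/-- There is a pairwise compatibility graph `PCG(T, a, b)` on `V` containing all edges of `G` and
no pair of `S`. -/
def GenPCG {V : Type} (G S : SimpleGraph V) : Prop :=
  ∃ (T : WTree V) (a b : ℝ), 0 ≤ a ∧ a ≤ b ∧ G ≤ pcg T a b ∧ Disjoint (pcg T a b) S

/-- Instances of generalized PCG recognition: (the adjacency matrices of) a graph and a graph
formed by some of its non-edges. -/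
def IsInstance (p : List (List Bool) × List (List Bool)) : Prop :=
  ∃ (n : ℕ) (G S : SimpleGraph (Fin n)), adjMatrix G = p.1 ∧ adjMatrix S = p.2 ∧ Disjoint G S

/-- Generalized PCG recognition: given a graph `G` on `{0, ..., n-1}` and a set `S` of non-edges of
`G` (as adjacency matrices), is there a pairwise compatibility graph that contains all edges of
`G` and no pair of `S`? -/
def GeneralizedPCG (p : List (List Bool) × List (List Bool)) : Prop :=
  ∃ (n : ℕ) (G S : SimpleGraph (Fin n)), adjMatrix G = p.1 ∧ adjMatrix S = p.2 ∧ Disjoint G S ∧
    GenPCG G S

end Pool.Agent.H255R3.PCG
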