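import Pool.Agent.H255R3.PCG.Defs

/-!
# The four-point condition for weighted trees
-/

namespace Pool.Agent.H255R3.PCG

section

variable {W : Type} {G : SimpleGraph W} (hG : G.IsTree) (wt : Sym2 W → ℝ)

theorem treePath_isPath (x y : W) : (treePath hG x y).IsPath :=
  (hG.existsUnique_path x y).choose_spec.1

theorem eq_treePath {x y : W} {p : G.Walk x y} (hp : p.IsPath) : p = treePath hG x y :=
  (hG.existsUnique_path x y).choose_spec.2 p hp

/-- The weight of the path between two vertices. -/
noncomputable def wd (x y : W) : ℝ := ((treePath hG x y).edges.map wt).sum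

theorem wd_symm (x y : W) : wd hG wt x y = wd hG wt y x := by
  unfold wd
  rw [← eq_treePath hG (treePath_isPath hG x y).reverse, SimpleGraph.Walk.edges_reverse,
    List.map_reverse, List.sum_reverse]

theorem treePath_append {x y z : W} (h : z ∈ (treePath hG x y).support) :
    treePath hG x y = (treePath hG x z).append (treePath hG z y) := by
  classical
  have h1 := (treePath hG x y).take_spec h
  rw [← eq_treePath hG ((treePath_isPath hG x y).takeUntil h),
    ← eq_treePath hG ((treePath_isPath hG x y).dropUntil h), h1]

theorem wd_split {x y z : W} (h : z ∈ (treePath hG x y).support) :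
    wd hG wt x y = wd hG wt x z + wd hG wt z y := by
  unfold wd
  rw [treePath_append hG h, SimpleGraph.Walk.edges_append, List.map_append, List.sum_append]

theorem wd_nonneg (hwt : ∀ e ∈ G.edgeSet, 0 < wt e) (x y : W) : 0 ≤ wd hG wt x y := by
  unfold wd
  apply List.sum_nonneg
  intro a ha
  rw [List.mem_map] at ha
  obtain ⟨e, he, rfl⟩ := ha
  exact (hwt e ((treePath hG x y).edges_subset_edgeSet he)).le

theorem exists_median (x y z : W) : ∃ m, m ∈ (treePath hG x y).support ∧
    m ∈ (treePath hG z x).support ∧ m ∈ (treePath hG z y).support := by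
  classical
  obtain ⟨m, hm, hmin⟩ := (treePath hG x y).support.toFinset.exists_min_image
    (fun s => (treePath hG z s).length) ⟨x, by simp⟩
  rw [List.mem_toFinset] at hm
  have key : ∀ s, s ∈ (treePath hG z m).support → s ∈ (treePath hG x y).support → s = m := by
    intro s hs hs'
    have h1 := hmin s (List.mem_toFinset.2 hs')
    have h2 : (treePath hG z m).length = (treePath hG z s).length + (treePath hG s m).length := by
      rw [treePath_append hG hs, SimpleGraph.Walk.length_append]
    have h3 : (treePath hG s m).length = 0 := by
      omega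
    exact SimpleGraph.Walk.eq_of_length_eq_zero h3
  have main : ∀ t, (∀ s, s ∈ (treePath hG m t).support → s ∈ (treePath hG x y).support) →
      m ∈ (treePath hG z t).support := by
    intro t ht
    have hp : ((treePath hG z m).append (treePath hG m t)).IsPath := by
      apply SimpleGraph.Walk.IsPath.mk'
      rw [SimpleGraph.Walk.support_append, List.nodup_append]
      have hnd := (treePath_isPath hG m t).support_nodup
      refine ⟨(treePath_isPath hG z m).support_nodup, hnd.tail, ?_⟩
      rintro a ha b hb rfl
      have h1 := key a ha (ht a (List.mem_of_mem_tail hb))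
      subst h1
      rw [← SimpleGraph.Walk.cons_tail_support] at hnd
      exact (List.nodup_cons.1 hnd).1 hb
    rw [← eq_treePath hG hp, SimpleGraph.Walk.mem_support_append_iff]
    exact Or.inl (SimpleGraph.Walk.end_mem_support _)
  refine ⟨m, hm, main x ?_, main y ?_⟩
  · intro s hs
    rw [← eq_treePath hG (treePath_isPath hG x m).reverse, SimpleGraph.Walk.support_reverse,
      List.mem_reverse] at hs
    rw [treePath_append hG hm, SimpleGraph.Walk.mem_support_append_iff]
    exact Or.inl hs
  · intro s hs
    rw [treePath_append hG hm, SimpleGraph.Walk.mem_support_append_iff]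
    exact Or.inr hs

theorem mem_or_mem {x y m k : W} (hm : m ∈ (treePath hG x y).support)
    (hk : k ∈ (treePath hG x y).support) :
    m ∈ (treePath hG x k).support ∨ k ∈ (treePath hG x m).support := by
  have h1 := treePath_append hG hk
  rw [h1, SimpleGraph.Walk.mem_support_append_iff] at hm
  rcases hm with hm | hm
  · exact Or.inl hm
  · right
    have h2 := treePath_append hG hm
    have hp := treePath_isPath hG x y
    rw [h1, h2, SimpleGraph.Walk.append_assoc] at hp
    have h3 := eq_treePath hG hp.of_append_left
    rw [← h3, SimpleGraph.Walk.mem_support_append_iff]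
    exact Or.inl (SimpleGraph.Walk.end_mem_support _)

theorem wd_triangle (hwt : ∀ e ∈ G.edgeSet, 0 < wt e) (x y z : W) :
    wd hG wt x z ≤ wd hG wt x y + wd hG wt y z := by
  obtain ⟨m, h1, h2, h3⟩ := exists_median hG x z y
  have e1 := wd_split hG wt h1
  have e2 := wd_split hG wt h2
  have e3 := wd_split hG wt h3
  have e4 := wd_symm hG wt x y
  have e5 := wd_symm hG wt x m
  have e6 := wd_nonneg hG wt hwt y m
  linarith

/-- The four-point condition. -/
theorem wd_four (hwt : ∀ e ∈ G.edgeSet, 0 < wt e) (x y z t : W) :
    wd hG wt x y + wd hG wt z t ≤ wd hG wt x z + wd hG wt y t ∨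
      wd hG wt x y + wd hG wt z t ≤ wd hG wt x t + wd hG wt y z := by
  obtain ⟨m, m1, m2, m3⟩ := exists_median hG x y z
  obtain ⟨k, k1, k2, k3⟩ := exists_median hG x y t
  have a1 := wd_split hG wt m1
  have a2 := wd_split hG wt m2
  have a3 := wd_split hG wt m3
  have b1 := wd_split hG wt k1
  have b2 := wd_split hG wt k2
  have b3 := wd_split hG wt k3
  have t1 := wd_triangle hG wt hwt z m t
  have t2 := wd_triangle hG wt hwt m k t
  have s1 := wd_symm hG wt x z
  have s2 := wd_symm hG wt y z
  have s3 := wd_symm hG wt x t
  have s4 := wd_symm hG wt y t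
  have s5 := wd_symm hG wt k t
  have s6 := wd_symm hG wt m x
  have s7 := wd_symm hG wt k x
  have s8 := wd_symm hG wt m k
  have n1 := wd_nonneg hG wt hwt m k
  rcases mem_or_mem hG m1 k1 with h | h
  · right
    have c1 := wd_split hG wt h
    linarith
  · left
    have c1 := wd_split hG wt h
    linarith

end

/-- The four-point condition for the leaves of a weighted tree. -/
theorem WTree.four {V : Type} (T : WTree V) (x y z t : V) :
    T.dist x y + T.dist z t ≤ T.dist x z + T.dist y t ∨
      T.dist x y + T.dist z t ≤ T.dist x t + T.dist y z :=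
  wd_four T.isTree T.wt T.wt_pos _ _ _ _

theorem WTree.dist_symm {V : Type} (T : WTree V) (x y : V) : T.dist x y = T.dist y x :=
  wd_symm T.isTree T.wt _ _

end Pool.Agent.H255R3.PCG
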