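import Pool.Agent.H255R3.PCG.Red
import Pool.Agent.H671R2.PolyAuto
import Pool.Agent.NPC.CookLevin3

/-!
# The reduction is computable in polynomial time
-/

namespace Pool.Agent.NPC.H255PCG

open Pool.Agent.H255R3.PCG Pool.Agent.NPC.R671 Pool.Agent.NPC.CL

theorem poly_tabE {α : Type} [TEnc α] {f g : α → Kind} (hf : Poly f) (hg : Poly g) :
    Poly (fun a => tabE (f a) (g a)) :=
  (polyOfFintype (fun p : Kind × Kind => tabE p.1 p.2)).comp (hf.pair hg)

theorem poly_tabS {α : Type} [TEnc α] {f g : α → Kind} (hf : Poly f) (hg : Poly g) :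
    Poly (fun a => tabS (f a) (g a)) :=
  (polyOfFintype (fun p : Kind × Kind => tabS p.1 p.2)).comp (hf.pair hg)

theorem poly_tabF {α : Type} [TEnc α] {z : α → Bool} {f g : α → Kind} (hz : Poly z) (hf : Poly f)
    (hg : Poly g) : Poly (fun a => tabF (z a) (f a) (g a)) :=
  (polyOfFintype (fun p : Bool × Kind × Kind => tabF p.1 p.2.1 p.2.2)).comp (hz.pair (hf.pair hg))

theorem poly_edge1 {α : Type} [TEnc α] {f g : α → Lab} (hf : Poly f) (hg : Poly g) :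
    Poly (fun a => edge1 (f a) (g a)) :=
  Poly.or (Poly.and (Poly.dec_eq hf.snd.fst hg.snd.fst) (poly_tabE hf.fst hg.fst))
    (Poly.and (Poly.dec_eq hf.snd.snd.snd hg.snd.fst)
      (poly_tabF hf.snd.snd.fst hf.fst hg.fst))

theorem poly_edge {α : Type} [TEnc α] {f g : α → Lab} (hf : Poly f) (hg : Poly g) :
    Poly (fun a => edge (f a) (g a)) :=
  Poly.or (poly_edge1 hf hg) (poly_edge1 hg hf)

theorem poly_nonedge {α : Type} [TEnc α] {f g : α → Lab} (hf : Poly f) (hg : Poly g) :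
    Poly (fun a => nonedge (f a) (g a)) :=
  Poly.and (Poly.dec_eq hf.snd.fst hg.snd.fst)
    (Poly.or (poly_tabS hf.fst hg.fst) (poly_tabS hg.fst hf.fst))

theorem poly_litAt {α : Type} [TEnc α] {c : α → Lit ℕ × Lit ℕ × Lit ℕ} {p : α → Bool × Bool}
    (hc : Poly c) (hp : Poly p) : Poly (fun a => litAt (c a) (p a)) := by
  refine (Poly.cond (b := fun a => (p a).1) (f := fun a => (c a).2.2)
    (g := fun a => cond (p a).2 (c a).2.1 (c a).1) hp.fst hc.snd.snd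
    (Poly.cond hp.snd hc.snd.fst hc.fst)).congr fun a => ?_
  rcases h : p a with ⟨_ | _, _ | _⟩ <;> simp [litAt]

theorem poly_kind {β : Type} [TEnc β] [Fintype β] (f : β → Kind) {α : Type} [TEnc α] {g : α → β}
    (hg : Poly g) : Poly (fun a => f (g a)) := (polyOfFintype f).comp hg

theorem poly_c1 : Poly (fun c : (Lit ℕ × Lit ℕ × Lit ℕ) × ℕ =>
    bools2.map fun p => ((Sum.inl p, c.2, (false, 0)) : Lab)) := by
  have h1 : Poly (fun a : ((Lit ℕ × Lit ℕ × Lit ℕ) × ℕ) × (Bool × Bool) => (Sum.inl a.2 : Kind)) :=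
    Poly.inl (Poly.snd Poly.id)
  have h2 : Poly (fun a : ((Lit ℕ × Lit ℕ × Lit ℕ) × ℕ) × (Bool × Bool) => a.1.2) :=
    Poly.snd (Poly.fst Poly.id)
  have h3 : Poly (fun a : ((Lit ℕ × Lit ℕ × Lit ℕ) × ℕ) × (Bool × Bool) => ((false, 0) : Lit ℕ)) :=
    Poly.const _
  have h := Poly.map (α := (Lit ℕ × Lit ℕ × Lit ℕ) × ℕ) (β := Bool × Bool) (γ := Lab)
    (l := fun _ => bools2) (F := fun (c : (Lit ℕ × Lit ℕ × Lit ℕ) × ℕ) (p : Bool × Bool) =>
      ((Sum.inl p, c.2, (false, 0)) : Lab))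
    (Poly.const bools2) (Poly.pair h1 (Poly.pair h2 h3))
  exact h

theorem poly_c4 : Poly (fun a : ((((Lit ℕ × Lit ℕ × Lit ℕ) × ℕ) × (Bool × Bool)) × Bool) × Sub =>
    ((Sum.inr (Sum.inr ((a.1.1.2.1, a.1.1.2.2, a.1.2), a.2)), a.1.1.1.2,
      litAt a.1.1.1.1 a.1.1.2) : Lab)) := by
  have h0 : Poly (fun a : ((((Lit ℕ × Lit ℕ × Lit ℕ) × ℕ) × (Bool × Bool)) × Bool) × Sub =>
    a.1.1) := Poly.fst (Poly.fst Poly.id)
  have h1 : Poly (fun a : ((((Lit ℕ × Lit ℕ × Lit ℕ) × ℕ) × (Bool × Bool)) × Bool) × Sub =>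
    a.1.2) := Poly.snd (Poly.fst Poly.id)
  have h2 : Poly (fun a : ((((Lit ℕ × Lit ℕ × Lit ℕ) × ℕ) × (Bool × Bool)) × Bool) × Sub =>
    a.2) := Poly.snd Poly.id
  have h3 : Poly (fun a : ((((Lit ℕ × Lit ℕ × Lit ℕ) × ℕ) × (Bool × Bool)) × Bool) × Sub =>
      ((Sum.inr (Sum.inr ((a.1.1.2.1, a.1.1.2.2, a.1.2), a.2))) : Kind)) :=
    Poly.inr (Poly.inr (Poly.pair (Poly.pair h0.snd.fst (Poly.pair h0.snd.snd h1)) h2))
  have h4 : Poly (fun a : ((((Lit ℕ × Lit ℕ × Lit ℕ) × ℕ) × (Bool × Bool)) × Bool) × Sub =>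
      litAt a.1.1.1.1 a.1.1.2) := poly_litAt h0.fst.fst h0.snd
  exact Poly.pair h3 (Poly.pair h0.fst.snd h4)

theorem poly_c3 : Poly (fun c : (((Lit ℕ × Lit ℕ × Lit ℕ) × ℕ) × (Bool × Bool)) × Bool =>
    subs.map fun t => ((Sum.inr (Sum.inr ((c.1.2.1, c.1.2.2, c.2), t)), c.1.1.2,
      litAt c.1.1.1 c.1.2) : Lab)) := by
  have h := Poly.map (α := (((Lit ℕ × Lit ℕ × Lit ℕ) × ℕ) × (Bool × Bool)) × Bool) (β := Sub)
    (γ := Lab) (l := fun _ => subs)
    (F := fun (c : (((Lit ℕ × Lit ℕ × Lit ℕ) × ℕ) × (Bool × Bool)) × Bool) (t : Sub) =>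
      ((Sum.inr (Sum.inr ((c.1.2.1, c.1.2.2, c.2), t)), c.1.1.2, litAt c.1.1.1 c.1.2) : Lab))
    (Poly.const subs) poly_c4
  exact h

theorem poly_c2 : Poly (fun c : ((Lit ℕ × Lit ℕ × Lit ℕ) × ℕ) × (Bool × Bool) =>
    boolsL.flatMap fun b => subs.map fun t => ((Sum.inr (Sum.inr ((c.2.1, c.2.2, b), t)), c.1.2,
      litAt c.1.1 c.2) : Lab)) := by
  have h := Poly.flatMap (α := ((Lit ℕ × Lit ℕ × Lit ℕ) × ℕ) × (Bool × Bool)) (β := Bool)
    (γ := Lab) (l := fun _ => boolsL)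
    (F := fun (c : ((Lit ℕ × Lit ℕ × Lit ℕ) × ℕ) × (Bool × Bool)) (b : Bool) =>
      subs.map fun t => ((Sum.inr (Sum.inr ((c.2.1, c.2.2, b), t)), c.1.2, litAt c.1.1 c.2) : Lab))
    (Poly.const boolsL) poly_c3
  exact h

theorem poly_clauseLabs : Poly clauseLabs := by
  have h := Poly.flatMap (α := (Lit ℕ × Lit ℕ × Lit ℕ) × ℕ) (β := Bool × Bool)
    (γ := Lab) (l := fun _ => bools2)
    (F := fun (c : (Lit ℕ × Lit ℕ × Lit ℕ) × ℕ) (p : Bool × Bool) => boolsL.flatMap fun b =>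
      subs.map fun t => ((Sum.inr (Sum.inr ((p.1, p.2, b), t)), c.2, litAt c.1 p) : Lab))
    (Poly.const bools2) poly_c2
  exact Poly.append poly_c1 h

theorem poly_varLabs : Poly varLabs := by
  have h1 : Poly (fun a : ℕ × (Bool × Bool) => (Sum.inr (Sum.inl a.2) : Kind)) :=
    Poly.inr (Poly.inl (Poly.snd Poly.id))
  have h2 : Poly (fun a : ℕ × (Bool × Bool) => a.1) := Poly.fst Poly.id
  have h3 : Poly (fun a : ℕ × (Bool × Bool) => ((false, 0) : Lit ℕ)) := Poly.const _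
  have h := Poly.map (α := ℕ) (β := Bool × Bool) (γ := Lab) (l := fun _ => bools2)
    (F := fun (v : ℕ) (p : Bool × Bool) => ((Sum.inr (Sum.inl p), v, (false, 0)) : Lab))
    (Poly.const bools2) (Poly.pair h1 (Poly.pair h2 h3))
  exact h

theorem poly_labs : Poly labs := by
  unfold labs
  refine Poly.append (Poly.flatMap (F := fun _ c => clauseLabs c) (Poly.zipIdx Poly.id)
    (poly_clauseLabs.comp (Poly.snd Poly.id))) ?_
  refine Poly.flatMap (F := fun _ v => varLabs v) ?_ (poly_varLabs.comp (Poly.snd Poly.id))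
  exact (UPoly.mul (UPoly.const 3) (UPoly.length Poly.id)).range

theorem poly_red : Poly red := by
  unfold red
  refine Poly.pair ?_ ?_
  · refine Poly.map (F := fun φ u => (labs φ).map fun v => edge u v) poly_labs ?_
    refine Poly.map (l := fun p : List (Lit ℕ × Lit ℕ × Lit ℕ) × Lab => labs p.1)
      (F := fun p v => edge p.2 v) (poly_labs.comp (Poly.fst Poly.id)) ?_
    exact poly_edge (Poly.snd (Poly.fst Poly.id)) (Poly.snd Poly.id)
  · refine Poly.map (F := fun φ u => (labs φ).map fun v => nonedge u v) poly_labs ?_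
    refine Poly.map (l := fun p : List (Lit ℕ × Lit ℕ × Lit ℕ) × Lab => labs p.1)
      (F := fun p v => nonedge p.2 v) (poly_labs.comp (Poly.fst Poly.id)) ?_
    exact poly_nonedge (Poly.snd (Poly.fst Poly.id)) (Poly.snd Poly.id)

end Pool.Agent.NPC.H255PCG
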