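import Pool.Agent.H255R3.PCG.Complete
import Pool.Agent.H255R3.PCG.PolyRed
import Pool.Agent.H673R2.HardOn

/-!
# Generalized PCG recognition is NP-hard
-/

namespace Pool.Agent.H255R3.PCG

open Pool.Agent.NPC Pool.Agent.NPC.R671

theorem tabE_self (k : Kind) : tabE k k = false := by
  rcases k with ⟨s, b⟩ | ⟨s, b⟩ | ⟨x, ⟨w, i⟩ | ⟨w, s, b⟩⟩ <;> simp [tabE]

theorem tabF_self (z : Bool) (k : Kind) : tabF z k k = false := by
  rcases k with ⟨s, b⟩ | ⟨s, b⟩ | ⟨x, ⟨w, i⟩ | ⟨w, s, b⟩⟩ <;> simp [tabF]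

theorem tabS_self (k : Kind) : tabS k k = false := by
  rcases k with ⟨s, b⟩ | ⟨s, b⟩ | ⟨x, ⟨w, i⟩ | ⟨w, s, b⟩⟩ <;> simp [tabS]

theorem edge_self (u : Lab) : edge u u = false := by
  simp [edge, edge1, tabE_self, tabF_self]

theorem nonedge_self (u : Lab) : nonedge u u = false := by
  simp [nonedge, tabS_self]

theorem edge_comm (u v : Lab) : edge u v = edge v u := by
  unfold edge
  rw [Bool.or_comm]

theorem nonedge_comm (u v : Lab) : nonedge u v = nonedge v u := by
  unfold nonedge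
  rw [Bool.or_comm]
  congr 1
  rw [decide_eq_decide]
  exact eq_comm

theorem tab_disj (k k' : Kind) (z : Bool) (h : tabS k k' = true) :
    tabE k k' = false ∧ tabE k' k = false ∧ tabF z k k' = false ∧ tabF z k' k = false := by
  rcases k with ⟨s, b⟩ | ⟨s, b⟩ | ⟨x, ⟨w, i⟩ | ⟨w, s, b⟩⟩ <;>
  rcases k' with ⟨s', b'⟩ | ⟨s', b'⟩ | ⟨x', ⟨w', i'⟩ | ⟨w', s', b'⟩⟩ <;>
  simp only [tabS, Bool.and_eq_true, bne_iff_ne, beq_iff_eq, Bool.false_eq_true] at h <;>
  simp only [tabE, tabF, and_true, and_self]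
  · refine ⟨?_, ?_⟩ <;> simp [h, Ne.symm h]
  · refine ⟨?_, ?_⟩ <;> simp [h, Ne.symm h]
  · refine ⟨?_, ?_⟩ <;> simp [h.2, Ne.symm h.2]
  · refine ⟨?_, ?_⟩ <;> simp [h.2, Ne.symm h.2]

theorem edge_disj {u v : Lab} (h : nonedge u v = true) : edge u v = false := by
  unfold nonedge at h
  rw [Bool.and_eq_true, Bool.or_eq_true] at h
  rcases h with ⟨_, h | h⟩
  · have h1 := tab_disj u.1 v.1 u.2.2.1 h
    have h2 := tab_disj u.1 v.1 v.2.2.1 h
    simp [edge, edge1, h1, h2]
  · have h1 := tab_disj v.1 u.1 u.2.2.1 h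
    have h2 := tab_disj v.1 u.1 v.2.2.1 h
    simp [edge, edge1, h1, h2]

/-- The graph of an instance of the reduction. -/
def graphE (φ : List (Lit ℕ × Lit ℕ × Lit ℕ)) : SimpleGraph (Fin (labs φ).length) :=
  listGraph (labs φ) edge edge_comm edge_self

/-- The graph of non-edges of an instance of the reduction. -/
def graphS (φ : List (Lit ℕ × Lit ℕ × Lit ℕ)) : SimpleGraph (Fin (labs φ).length) :=
  listGraph (labs φ) nonedge nonedge_comm nonedge_self

theorem graph_disj (φ : List (Lit ℕ × Lit ℕ × Lit ℕ)) : Disjoint (graphE φ) (graphS φ) := by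
  rw [disjoint_iff_inf_le]
  rintro i j ⟨h1, h2⟩
  have h3 := edge_disj h2
  change edge _ _ = true at h1
  rw [h3] at h1
  exact absurd h1 (by simp)

theorem red_eq (φ : List (Lit ℕ × Lit ℕ × Lit ℕ)) :
    adjMatrix (graphE φ) = (red φ).1 ∧ adjMatrix (graphS φ) = (red φ).2 :=
  ⟨adjMatrix_listGraph _ _ _ _, adjMatrix_listGraph _ _ _ _⟩

theorem red_isInstance (φ : List (Lit ℕ × Lit ℕ × Lit ℕ)) : IsInstance (red φ) :=
  ⟨_, graphE φ, graphS φ, (red_eq φ).1, (red_eq φ).2, graph_disj φ⟩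

theorem length_adjMatrix {n : ℕ} (G : SimpleGraph (Fin n)) : (adjMatrix G).length = n := by
  simp [adjMatrix]

theorem generalized_iff {n : ℕ} (G S : SimpleGraph (Fin n)) (hd : Disjoint G S) :
    GeneralizedPCG (adjMatrix G, adjMatrix S) ↔ GenPCG G S := by
  constructor
  · rintro ⟨m, G', S', h1, h2, _, h⟩
    have h3 : m = n := by
      rw [← length_adjMatrix G', h1, length_adjMatrix]
    subst h3
    rw [← adjMatrix_inj h1, ← adjMatrix_inj h2]
    exact h
  · intro h
    exact ⟨n, G, S, rfl, rfl, hd, h⟩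

theorem genPCG_sat {φ : List (Lit ℕ × Lit ℕ × Lit ℕ)} (hφ : Bounded3 φ)
    (h : GenPCG (graphE φ) (graphS φ)) : SAT3 φ := by
  classical
  obtain ⟨T, a, b, h0, hab, hG, hS⟩ := h
  have hE' : ∀ i j, edge (labs φ)[i] (labs φ)[j] = true → a ≤ T.dist i j ∧ T.dist i j ≤ b := by
    intro i j h
    have h1 : (pcg T a b).Adj i j := hG (show (graphE φ).Adj i j from h)
    unfold pcg at h1
    rw [SimpleGraph.fromRel_adj] at h1
    rcases h1.2 with h2 | h2
    · exact h2
    · rw [T.dist_symm i j]; exact h2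
  have hS' : ∀ i j, nonedge (labs φ)[i] (labs φ)[j] = true → T.dist i j < a ∨ b < T.dist i j := by
    intro i j h
    by_contra hcon
    push Not at hcon
    have h1 : (graphS φ).Adj i j := h
    have h2 : (pcg T a b).Adj i j := by
      unfold pcg
      rw [SimpleGraph.fromRel_adj]
      exact ⟨h1.ne, Or.inl hcon⟩
    rw [disjoint_iff_inf_le] at hS
    exact hS ⟨h2, h1⟩
  by_cases hne : φ = []
  · subst hne
    exact ⟨fun _ => true, fun c hc => by simp at hc⟩
  have hpos : 0 < (labs φ).length := by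
    have := mem_labs.2 (Or.inl ⟨0, List.length_pos_iff.2 hne, Or.inl ⟨(false, false), rfl⟩⟩ :
      _ ∨ _)
    exact List.length_pos_of_mem this
  let ix : Lab → Fin (labs φ).length := fun u =>
    if h : u ∈ labs φ then ⟨(List.getElem_of_mem h).choose, (List.getElem_of_mem h).choose_spec.choose⟩
    else ⟨0, hpos⟩
  have hix : ∀ u ∈ labs φ, (labs φ)[ix u] = u := by
    intro u hu
    simp only [ix, dif_pos hu, Fin.getElem_fin]
    exact (List.getElem_of_mem hu).choose_spec.choose_spec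
  refine sound (φ := φ) hφ (d := fun u v => T.dist (ix u) (ix v)) (a := a) (b := b)
    (fun x y z t => T.four _ _ _ _) ?_ ?_
  · intro u hu v hv h
    exact hE' _ _ (by rw [hix u hu, hix v hv]; exact h)
  · intro u hu v hv h
    exact hS' _ _ (by rw [hix u hu, hix v hv]; exact h)

theorem sat_genPCG {φ : List (Lit ℕ × Lit ℕ × Lit ℕ)} (hne : φ ≠ []) (h : SAT3 φ) :
    GenPCG (graphE φ) (graphS φ) := by
  obtain ⟨T, hT⟩ := complete hne h
  refine ⟨T, 39, 41, by norm_num, by norm_num, ?_, ?_⟩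
  · intro i j hij
    unfold pcg
    rw [SimpleGraph.fromRel_adj]
    exact ⟨hij.ne, Or.inl ((hT i j hij.ne).1 hij)⟩
  · rw [disjoint_iff_inf_le]
    rintro i j ⟨h1, h2⟩
    unfold pcg at h1
    rw [SimpleGraph.fromRel_adj] at h1
    have h3 := (hT i j h1.1).2 h2
    rcases h1.2 with h4 | h4
    · rcases h3 with h3 | h3 <;> linarith [h4.1, h4.2]
    · rw [T.dist_symm j i] at h4
      rcases h3 with h3 | h3 <;> linarith [h4.1, h4.2]

theorem red_iff {φ : List (Lit ℕ × Lit ℕ × Lit ℕ)} (hφ : Bounded3 φ) (hne : φ ≠ []) :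
    SAT3 φ ↔ GeneralizedPCG (red φ) := by
  have h := generalized_iff (graphE φ) (graphS φ) (graph_disj φ)
  rw [(red_eq φ).1, (red_eq φ).2] at h
  exact ⟨fun h' => h.2 (sat_genPCG hne h'), fun h' => genPCG_sat hφ (h.1 h')⟩

/-- Generalized PCG recognition is NP-hard: every language in NP has a polynomial-time many-one
reduction to it, all of whose instances are well formed. -/
theorem hard : H673R2.NPHardOn IsInstance GeneralizedPCG :=
  H673R2.npHardOn_of hardPr_SAT3b H255PCG.poly_red (fun φ _ => red_isInstance φ)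
    (fun _ hφ => red_iff hφ.2.1 hφ.2.2)

end Pool.Agent.H255R3.PCG
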