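import Pool.Agent.NPC.Sat2
import Pool.Agent.H255R3.PCG.Defs

/-!
# The reduction from 3SAT
-/

namespace Pool.Agent.H255R3.PCG

open Pool.Agent.NPC Pool.Agent.NPC.R671

/-- The kinds of the vertices of a chain: `inl (w, i)` are the vertices `q₀, q₁` (`w = false`) and
`r₀, r₁` (`w = true`), `inr (w, s, b)` are the vertices of the helper gadget of the pair
`q_w, r_{!w}`. -/
abbrev Sub := (Bool × Bool) ⊕ (Bool × Bool × Bool)

/-- The kinds of vertices: of a clause gadget, of a variable gadget, of a chain. -/
abbrev Kind := (Bool × Bool) ⊕ (Bool × Bool) ⊕ ((Bool × Bool × Bool) × Sub)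

/-- The labels of vertices: the kind, the number of the clause or variable, and the literal (for a
vertex of a chain). -/
abbrev Lab := Kind × ℕ × Lit ℕ

/-- The literal of a clause at a position. -/
def litAt (c : Lit ℕ × Lit ℕ × Lit ℕ) : Bool × Bool → Lit ℕ
  | (false, false) => c.1
  | (false, true) => c.2.1
  | (true, _) => c.2.2

def boolsL : List Bool := [false, true]

/-- All pairs of booleans. -/
def bools2 : List (Bool × Bool) := [(false, false), (false, true), (true, false), (true, true)]

/-- All kinds of vertices of a chain. -/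
def subs : List Sub :=
  bools2.map Sum.inl ++ (bools2.map fun p => Sum.inr (false, p)) ++
    bools2.map fun p => Sum.inr (true, p)

/-- The labels for a clause with its number. -/
def clauseLabs (c : (Lit ℕ × Lit ℕ × Lit ℕ) × ℕ) : List Lab :=
  (bools2.map fun p => ((Sum.inl p, c.2, (false, 0)) : Lab)) ++
    bools2.flatMap fun p => boolsL.flatMap fun b =>
      subs.map fun t => (Sum.inr (Sum.inr ((p.1, p.2, b), t)), c.2, litAt c.1 p)

/-- The labels for a variable. -/
def varLabs (v : ℕ) : List Lab := bools2.map fun p => (Sum.inr (Sum.inl p), v, (false, 0))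

/-- The labels of all vertices. -/
def labs (φ : List (Lit ℕ × Lit ℕ × Lit ℕ)) : List Lab :=
  φ.zipIdx.flatMap clauseLabs ++ (List.range (3 * φ.length)).flatMap varLabs

/-- The edges between vertices with the same number, in one direction. -/
def tabE : Kind → Kind → Bool
  | Sum.inl (s, b), Sum.inl (s', b') => s == s' && b != b'
  | Sum.inr (Sum.inl (s, b)), Sum.inr (Sum.inl (s', b')) => s == s' && b != b'
  | Sum.inr (Sum.inr (x, Sum.inl (w, _))), Sum.inl (s, b) => !w && b == (if s then x.2.1 else x.1)
  | Sum.inr (Sum.inr (x, Sum.inl (w, i))), Sum.inr (Sum.inr (x', Sum.inl (w', i'))) =>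
    x == x' && w != w' && i == i'
  | Sum.inr (Sum.inr (x, Sum.inr (w, s, b))), Sum.inr (Sum.inr (x', Sum.inr (w', s', b'))) =>
    x == x' && w == w' && s == s' && b != b'
  | Sum.inr (Sum.inr (x, Sum.inr (w, _, _))), Sum.inr (Sum.inr (x', Sum.inl (w', i'))) =>
    x == x' && i' == (w != w')
  | _, _ => false

/-- The edges between the vertices `r₀`, `r₁` of a chain and the gadget of a variable, in one
direction; `z` is the sign of the literal. -/
def tabF (z : Bool) : Kind → Kind → Bool
  | Sum.inr (Sum.inr (x, Sum.inl (w, _))), Sum.inr (Sum.inl (s, b)) =>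
    w && b == (if s then x.2.2 else z)
  | _, _ => false

/-- The non-edges to be kept, in one direction. -/
def tabS : Kind → Kind → Bool
  | Sum.inl (s, _), Sum.inl (s', _) => s != s'
  | Sum.inr (Sum.inl (s, _)), Sum.inr (Sum.inl (s', _)) => s != s'
  | Sum.inr (Sum.inr (x, Sum.inl (_, i))), Sum.inr (Sum.inr (x', Sum.inl (_, i'))) =>
    x == x' && i != i'
  | Sum.inr (Sum.inr (x, Sum.inr (w, s, _))), Sum.inr (Sum.inr (x', Sum.inr (w', s', _))) =>
    x == x' && w == w' && s != s'
  | _, _ => false

/-- The edges, in one direction. -/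
def edge1 (u v : Lab) : Bool :=
  (decide (u.2.1 = v.2.1) && tabE u.1 v.1) || (decide (u.2.2.2 = v.2.1) && tabF u.2.2.1 u.1 v.1)

/-- The edges. -/
def edge (u v : Lab) : Bool := edge1 u v || edge1 v u

/-- The non-edges to be kept. -/
def nonedge (u v : Lab) : Bool :=
  decide (u.2.1 = v.2.1) && (tabS u.1 v.1 || tabS v.1 u.1)

/-- The reduction. -/
def red (φ : List (Lit ℕ × Lit ℕ × Lit ℕ)) : List (List Bool) × List (List Bool) :=
  ((labs φ).map fun u => (labs φ).map fun v => edge u v,
    (labs φ).map fun u => (labs φ).map fun v => nonedge u v)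

end Pool.Agent.H255R3.PCG
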