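import Pool.Agent.H255R3.PCG.FourPoint
import Pool.Agent.H255R3.PCG.Red

/-!
# Soundness of the reduction
-/

namespace Pool.Agent.H255R3.PCG

open Pool.Agent.NPC Pool.Agent.NPC.R671

theorem mem_bools2 (p : Bool × Bool) : p ∈ bools2 := by
  rcases p with ⟨_ | _, _ | _⟩ <;> simp [bools2]

theorem mem_boolsL (b : Bool) : b ∈ boolsL := by cases b <;> simp [boolsL]

theorem mem_subs (t : Sub) : t ∈ subs := by
  unfold subs
  simp only [List.mem_append, List.mem_map]
  rcases t with p | ⟨_ | _, p⟩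
  · exact Or.inl (Or.inl ⟨p, mem_bools2 p, rfl⟩)
  · exact Or.inl (Or.inr ⟨p, mem_bools2 p, rfl⟩)
  · exact Or.inr ⟨p, mem_bools2 p, rfl⟩

/-- The label of a vertex of the gadget of a clause. -/
def labP (j : ℕ) (p : Bool × Bool) : Lab := (Sum.inl p, j, (false, 0))

/-- The label of a vertex of the gadget of a variable. -/
def labQ (v : ℕ) (p : Bool × Bool) : Lab := (Sum.inr (Sum.inl p), v, (false, 0))

/-- The label of a vertex of a chain. -/
def labC (c : Lit ℕ × Lit ℕ × Lit ℕ) (j : ℕ) (x : Bool × Bool × Bool) (t : Sub) : Lab :=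
  (Sum.inr (Sum.inr (x, t)), j, litAt c (x.1, x.2.1))

theorem mem_labs {φ : List (Lit ℕ × Lit ℕ × Lit ℕ)} {u : Lab} : u ∈ labs φ ↔
    (∃ (j : ℕ) (h : j < φ.length), (∃ p, u = labP j p) ∨ ∃ x t, u = labC φ[j] j x t) ∨
      ∃ v, v < 3 * φ.length ∧ ∃ p, u = labQ v p := by
  unfold labs
  rw [List.mem_append, List.mem_flatMap, List.mem_flatMap]
  refine or_congr ?_ ?_
  · constructor
    · rintro ⟨⟨c, j⟩, hc, hu⟩
      have h1 := List.mem_zipIdx' hc
      refine ⟨j, h1.1, ?_⟩
      have h2 : φ[j]'h1.1 = c := h1.2.symm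
      rw [h2]
      unfold clauseLabs at hu
      rw [List.mem_append, List.mem_map, List.mem_flatMap] at hu
      rcases hu with ⟨p, _, rfl⟩ | ⟨p, _, hu⟩
      · exact Or.inl ⟨p, rfl⟩
      · rw [List.mem_flatMap] at hu
        obtain ⟨b, _, hu⟩ := hu
        rw [List.mem_map] at hu
        obtain ⟨t, _, rfl⟩ := hu
        exact Or.inr ⟨(p.1, p.2, b), t, rfl⟩
    · rintro ⟨j, hj, h⟩
      refine ⟨(φ[j], j), List.mk_mem_zipIdx_iff_getElem?.2 (List.getElem?_eq_getElem hj), ?_⟩
      unfold clauseLabs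
      rw [List.mem_append, List.mem_map, List.mem_flatMap]
      rcases h with ⟨p, rfl⟩ | ⟨x, t, rfl⟩
      · exact Or.inl ⟨p, mem_bools2 p, rfl⟩
      · refine Or.inr ⟨(x.1, x.2.1), mem_bools2 _, ?_⟩
        rw [List.mem_flatMap]
        refine ⟨x.2.2, mem_boolsL _, ?_⟩
        rw [List.mem_map]
        exact ⟨t, mem_subs t, rfl⟩
  · constructor
    · rintro ⟨v, hv, hu⟩
      unfold varLabs at hu
      rw [List.mem_map] at hu
      obtain ⟨p, _, rfl⟩ := hu
      exact ⟨v, List.mem_range.1 hv, p, rfl⟩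
    · rintro ⟨v, hv, p, rfl⟩
      refine ⟨v, List.mem_range.2 hv, ?_⟩
      unfold varLabs
      rw [List.mem_map]
      exact ⟨p, mem_bools2 p, rfl⟩

section

variable {α : Type} {d : α → α → ℝ} {a b : ℝ}

/-- Two pairs with all cross distances in the interval are not both long. -/
theorem conflict
    (h4 : ∀ x y z t, d x y + d z t ≤ d x z + d y t ∨ d x y + d z t ≤ d x t + d y z)
    {p q r s : α} (h1 : d p r ≤ b) (h2 : d p s ≤ b) (h3 : d q r ≤ b) (h5 : d q s ≤ b)
    (hp : b < d p q) : ¬ b < d r s := by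
  intro hr
  rcases h4 p q r s with h | h <;> linarith

/-- In a gadget one of the four non-edges is long. -/
theorem gadget
    (h4 : ∀ x y z t, d x y + d z t ≤ d x z + d y t ∨ d x y + d z t ≤ d x t + d y z)
    {x y z t : α} (h1 : a ≤ d x y) (h2 : a ≤ d z t) (s1 : d x z < a ∨ b < d x z)
    (s2 : d x t < a ∨ b < d x t) (s3 : d y z < a ∨ b < d y z) (s4 : d y t < a ∨ b < d y t) :
    b < d x z ∨ b < d x t ∨ b < d y z ∨ b < d y t := by
  by_contra hcon
  push Not at hcon
  obtain ⟨c1, c2, c3, c4⟩ := hcon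
  have e1 : d x z < a := s1.resolve_right (not_lt.2 c1)
  have e2 : d x t < a := s2.resolve_right (not_lt.2 c2)
  have e3 : d y z < a := s3.resolve_right (not_lt.2 c3)
  have e4 : d y t < a := s4.resolve_right (not_lt.2 c4)
  rcases h4 x y z t with h | h <;> linarith

end

/-- Distances between labels obeying the constraints give a satisfying assignment. -/
theorem sound {φ : List (Lit ℕ × Lit ℕ × Lit ℕ)} (hφ : Bounded3 φ) {d : Lab → Lab → ℝ} {a b : ℝ}
    (h4 : ∀ x y z t, d x y + d z t ≤ d x z + d y t ∨ d x y + d z t ≤ d x t + d y z)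
    (hE : ∀ u ∈ labs φ, ∀ v ∈ labs φ, edge u v = true → a ≤ d u v ∧ d u v ≤ b)
    (hS : ∀ u ∈ labs φ, ∀ v ∈ labs φ, nonedge u v = true → d u v < a ∨ b < d u v) :
    SAT3 φ := by
  have mP : ∀ (j : ℕ) (h : j < φ.length) p, labP j p ∈ labs φ := fun j h p =>
    mem_labs.2 (Or.inl ⟨j, h, Or.inl ⟨p, rfl⟩⟩)
  have mC : ∀ (j : ℕ) (h : j < φ.length) x t, labC φ[j] j x t ∈ labs φ := fun j h x t =>
    mem_labs.2 (Or.inl ⟨j, h, Or.inr ⟨x, t, rfl⟩⟩)
  have mQ : ∀ (v : ℕ) (_ : v < 3 * φ.length) p, labQ v p ∈ labs φ := fun v h p =>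
    mem_labs.2 (Or.inr ⟨v, h, p, rfl⟩)
  -- the gadgets
  have gP : ∀ (j : ℕ) (h : j < φ.length), ∃ b1 b2, b < d (labP j (false, b1)) (labP j (true, b2)) := by
    intro j h
    have := gadget (a := a) (b := b) h4 (x := labP j (false, false)) (y := labP j (false, true))
      (z := labP j (true, false)) (t := labP j (true, true))
      (hE _ (mP j h _) _ (mP j h _) (by simp [edge, edge1, labP, tabE])).1
      (hE _ (mP j h _) _ (mP j h _) (by simp [edge, edge1, labP, tabE])).1
      (hS _ (mP j h _) _ (mP j h _) (by simp [nonedge, labP, tabS]))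
      (hS _ (mP j h _) _ (mP j h _) (by simp [nonedge, labP, tabS]))
      (hS _ (mP j h _) _ (mP j h _) (by simp [nonedge, labP, tabS]))
      (hS _ (mP j h _) _ (mP j h _) (by simp [nonedge, labP, tabS]))
    rcases this with h | h | h | h
    · exact ⟨_, _, h⟩
    · exact ⟨_, _, h⟩
    · exact ⟨_, _, h⟩
    · exact ⟨_, _, h⟩
  have gQ : ∀ (v : ℕ) (_ : v < 3 * φ.length),
      ∃ b1 b2, b < d (labQ v (false, b1)) (labQ v (true, b2)) := by
    intro j h
    have := gadget (a := a) (b := b) h4 (x := labQ j (false, false)) (y := labQ j (false, true))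
      (z := labQ j (true, false)) (t := labQ j (true, true))
      (hE _ (mQ j h _) _ (mQ j h _) (by simp [edge, edge1, labQ, tabE])).1
      (hE _ (mQ j h _) _ (mQ j h _) (by simp [edge, edge1, labQ, tabE])).1
      (hS _ (mQ j h _) _ (mQ j h _) (by simp [nonedge, labQ, tabS]))
      (hS _ (mQ j h _) _ (mQ j h _) (by simp [nonedge, labQ, tabS]))
      (hS _ (mQ j h _) _ (mQ j h _) (by simp [nonedge, labQ, tabS]))
      (hS _ (mQ j h _) _ (mQ j h _) (by simp [nonedge, labQ, tabS]))
    rcases this with h | h | h | h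
    · exact ⟨_, _, h⟩
    · exact ⟨_, _, h⟩
    · exact ⟨_, _, h⟩
    · exact ⟨_, _, h⟩
  have gT : ∀ (j : ℕ) (h : j < φ.length) x w, ∃ b1 b2,
      b < d (labC φ[j] j x (Sum.inr (w, false, b1))) (labC φ[j] j x (Sum.inr (w, true, b2))) := by
    intro j h x w
    have := gadget (a := a) (b := b) h4 (x := labC φ[j] j x (Sum.inr (w, false, false)))
      (y := labC φ[j] j x (Sum.inr (w, false, true)))
      (z := labC φ[j] j x (Sum.inr (w, true, false))) (t := labC φ[j] j x (Sum.inr (w, true, true)))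
      (hE _ (mC j h _ _) _ (mC j h _ _) (by simp [edge, edge1, labC, tabE])).1
      (hE _ (mC j h _ _) _ (mC j h _ _) (by simp [edge, edge1, labC, tabE])).1
      (hS _ (mC j h _ _) _ (mC j h _ _) (by simp [nonedge, labC, tabS]))
      (hS _ (mC j h _ _) _ (mC j h _ _) (by simp [nonedge, labC, tabS]))
      (hS _ (mC j h _ _) _ (mC j h _ _) (by simp [nonedge, labC, tabS]))
      (hS _ (mC j h _ _) _ (mC j h _ _) (by simp [nonedge, labC, tabS]))
    rcases this with h | h | h | h
    · exact ⟨_, _, h⟩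
    · exact ⟨_, _, h⟩
    · exact ⟨_, _, h⟩
    · exact ⟨_, _, h⟩
  -- the forced pairs
  have fQ : ∀ (j : ℕ) (h : j < φ.length) x w,
      ¬ b < d (labC φ[j] j x (Sum.inl (false, w))) (labC φ[j] j x (Sum.inl (true, !w))) := by
    intro j h x w
    obtain ⟨b1, b2, hb⟩ := gT j h x w
    refine conflict h4 ?_ ?_ ?_ ?_ hb
    · exact (hE _ (mC j h _ _) _ (mC j h _ _) (by simp [edge, edge1, labC, tabE])).2
    · exact (hE _ (mC j h _ _) _ (mC j h _ _) (by simp [edge, edge1, labC, tabE])).2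
    · exact (hE _ (mC j h _ _) _ (mC j h _ _) (by simp [edge, edge1, labC, tabE])).2
    · exact (hE _ (mC j h _ _) _ (mC j h _ _) (by simp [edge, edge1, labC, tabE])).2
  have fOr : ∀ (j : ℕ) (h : j < φ.length) x,
      b < d (labC φ[j] j x (Sum.inl (false, false))) (labC φ[j] j x (Sum.inl (false, true))) ∨
      b < d (labC φ[j] j x (Sum.inl (true, false))) (labC φ[j] j x (Sum.inl (true, true))) := by
    intro j h x
    have := gadget (a := a) (b := b) h4 (x := labC φ[j] j x (Sum.inl (false, false)))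
      (y := labC φ[j] j x (Sum.inl (true, false)))
      (z := labC φ[j] j x (Sum.inl (false, true))) (t := labC φ[j] j x (Sum.inl (true, true)))
      (hE _ (mC j h _ _) _ (mC j h _ _) (by simp [edge, edge1, labC, tabE])).1
      (hE _ (mC j h _ _) _ (mC j h _ _) (by simp [edge, edge1, labC, tabE])).1
      (hS _ (mC j h _ _) _ (mC j h _ _) (by simp [nonedge, labC, tabS]))
      (hS _ (mC j h _ _) _ (mC j h _ _) (by simp [nonedge, labC, tabS]))
      (hS _ (mC j h _ _) _ (mC j h _ _) (by simp [nonedge, labC, tabS]))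
      (hS _ (mC j h _ _) _ (mC j h _ _) (by simp [nonedge, labC, tabS]))
    rcases this with h' | h' | h' | h'
    · exact Or.inl h'
    · exact absurd h' (fQ j h x false)
    · exfalso
      have h1 := fQ j h x true
      obtain ⟨b1, b2, hb⟩ := gT j h x true
      refine conflict h4 ?_ ?_ ?_ ?_ hb h'
      · exact (hE _ (mC j h _ _) _ (mC j h _ _) (by simp [edge, edge1, labC, tabE])).2
      · exact (hE _ (mC j h _ _) _ (mC j h _ _) (by simp [edge, edge1, labC, tabE])).2
      · exact (hE _ (mC j h _ _) _ (mC j h _ _) (by simp [edge, edge1, labC, tabE])).2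
      · exact (hE _ (mC j h _ _) _ (mC j h _ _) (by simp [edge, edge1, labC, tabE])).2
    · exact Or.inr h'
  -- the chains
  have chain : ∀ (j : ℕ) (h : j < φ.length) (x : Bool × Bool × Bool),
      (litAt φ[j] (x.1, x.2.1)).2 < 3 * φ.length →
      b < d (labP j (false, x.1)) (labP j (true, x.2.1)) →
      ¬ b < d (labQ (litAt φ[j] (x.1, x.2.1)).2 (false, (litAt φ[j] (x.1, x.2.1)).1))
        (labQ (litAt φ[j] (x.1, x.2.1)).2 (true, x.2.2)) := by
    intro j h x hv hp
    have h1 : ¬ b < d (labC φ[j] j x (Sum.inl (false, false)))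
        (labC φ[j] j x (Sum.inl (false, true))) := by
      refine conflict h4 ?_ ?_ ?_ ?_ hp
      · exact (hE _ (mP j h _) _ (mC j h _ _) (by simp [edge, edge1, labC, labP, tabE])).2
      · exact (hE _ (mP j h _) _ (mC j h _ _) (by simp [edge, edge1, labC, labP, tabE])).2
      · exact (hE _ (mP j h _) _ (mC j h _ _) (by simp [edge, edge1, labC, labP, tabE])).2
      · exact (hE _ (mP j h _) _ (mC j h _ _) (by simp [edge, edge1, labC, labP, tabE])).2
    have h2 := (fOr j h x).resolve_left h1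
    refine conflict h4 ?_ ?_ ?_ ?_ h2
    · exact (hE _ (mC j h _ _) _ (mQ _ hv _) (by simp [edge, edge1, labC, labQ, tabE, tabF])).2
    · exact (hE _ (mC j h _ _) _ (mQ _ hv _) (by simp [edge, edge1, labC, labQ, tabE, tabF])).2
    · exact (hE _ (mC j h _ _) _ (mQ _ hv _) (by simp [edge, edge1, labC, labQ, tabE, tabF])).2
    · exact (hE _ (mC j h _ _) _ (mQ _ hv _) (by simp [edge, edge1, labC, labQ, tabE, tabF])).2
  choose k l hkl using gQ
  refine ⟨fun v => if h : v < 3 * φ.length then !(k v h) else false, ?_⟩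
  intro c hc
  obtain ⟨j, hj, rfl⟩ := List.getElem_of_mem hc
  obtain ⟨b1, b2, hb⟩ := gP j hj
  obtain ⟨c1, c2, c3⟩ := hφ _ hc
  have hlt : (litAt φ[j] (b1, b2)).2 < 3 * φ.length := by
    cases b1 <;> cases b2 <;> simp only [litAt] <;> assumption
  have h1 := chain j hj (b1, b2, l _ hlt) hlt hb
  have h2 := hkl _ hlt
  have h3 : (!(k _ hlt)) = (litAt φ[j] (b1, b2)).1 := by
    by_contra hne
    have : (litAt φ[j] (b1, b2)).1 = k _ hlt := by
      revert hne
      generalize (litAt φ[j] (b1, b2)).1 = z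
      generalize k (litAt φ[j] (b1, b2)).2 hlt = y
      cases z <;> cases y <;> simp
    apply h1
    simp only [this]
    exact h2
  have h4' : (fun v => if h : v < 3 * φ.length then !(k v h) else false)
      (litAt φ[j] (b1, b2)).2 = (litAt φ[j] (b1, b2)).1 := by
    simp only [hlt, dif_pos]
    exact h3
  cases b1 <;> cases b2
  · exact Or.inl h4'
  · exact Or.inr (Or.inl h4')
  · exact Or.inr (Or.inr h4')
  · exact Or.inr (Or.inr h4')

end Pool.Agent.H255R3.PCG
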