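import Pool.Agent.H255R3.PCG.FourPoint
import Pool.Agent.H673R2.TsTree

/-!
# Realizing distances by tries
-/

namespace Pool.Agent.H255R3.PCG

/-- The longest common prefix. -/
def lcp : List ℕ → List ℕ → List ℕ
  | a :: x, b :: y => if a = b then a :: lcp x y else []
  | _, _ => []

theorem lcp_nil_right (x : List ℕ) : lcp x [] = [] := by cases x <;> rfl

theorem lcp_comm : ∀ x y : List ℕ, lcp x y = lcp y x
  | [], [] => rfl
  | [], _ :: _ => rfl
  | _ :: _, [] => rfl
  | a :: x, b :: y => by
    unfold lcp
    by_cases h : a = b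
    · subst h; simp [lcp_comm x y]
    · rw [if_neg h, if_neg (Ne.symm h)]

theorem lcp_of_prefix : ∀ {s x : List ℕ}, s <+: x → lcp x s = s
  | [], x, _ => lcp_nil_right x
  | b :: s, [], h => by simp at h
  | b :: s, a :: x, h => by
    rw [List.cons_prefix_cons] at h
    unfold lcp
    rw [if_pos h.1.symm, lcp_of_prefix h.2, h.1]

theorem lcp_self (x : List ℕ) : lcp x x = x := lcp_of_prefix (List.prefix_refl x)

theorem lcp_dropLast : ∀ {s x : List ℕ}, ¬ s <+: x → lcp x s = lcp x s.dropLast
  | [], x, h => by simp at h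
  | b :: s, [], _ => rfl
  | b :: [], a :: x, h => by
    have : a ≠ b := by
      rintro rfl
      exact h (by simp)
    simp [lcp, this]
  | b :: c :: s, a :: x, h => by
    rw [List.dropLast_cons_of_ne_nil (by simp)]
    unfold lcp
    by_cases hab : a = b
    · subst hab
      rw [if_pos rfl, if_pos rfl]
      congr 1
      apply lcp_dropLast
      intro h'
      exact h (by simpa using h')
    · rw [if_neg hab, if_neg hab]

theorem prefix_dropLast {s x : List ℕ} (h : s <+: x) (hne : s ≠ x) : s <+: x.dropLast := by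
  obtain ⟨t, rfl⟩ := h
  have ht : t ≠ [] := by
    rintro rfl
    simp at hne
  rw [List.dropLast_append_of_ne_nil ht]
  exact List.prefix_append _ _

/-- The weight of a path, for a function `D` that is compatible with the edges. -/
theorem path_weight {W : Type} {G : SimpleGraph W} (D : W → W → ℝ)
    (hsymm : ∀ x y, D x y = D y x) (h0 : ∀ x, D x x = 0)
    (hL : ∀ x y s s', G.Adj x y → G.Adj s s' → s ≠ x → s' ≠ x → D x s' - D y s' = D x s - D y s)
    {x z : W} (p : G.Walk x z) (hp : p.IsPath) :
    (p.edges.map (Sym2.lift ⟨D, hsymm⟩)).sum = D x z := by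
  have key : ∀ {x y s z : W} (q : G.Walk s z), G.Adj x y → x ∉ q.support →
      D x z - D y z = D x s - D y s := by
    intro x y s z q hxy
    induction q with
    | nil => intro _; rfl
    | @cons a b c hab q ih =>
      intro hx
      rw [SimpleGraph.Walk.support_cons, List.mem_cons, not_or] at hx
      rw [ih hx.2]
      refine hL x y a b hxy hab (Ne.symm hx.1) ?_
      rintro rfl
      exact hx.2 (SimpleGraph.Walk.start_mem_support _)
  induction p with
  | nil => simp [h0]
  | @cons a b c hab p ih =>
    rw [SimpleGraph.Walk.cons_isPath_iff] at hp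
    rw [SimpleGraph.Walk.edges_cons, List.map_cons, List.sum_cons, ih hp.1]
    have h1 := key p hab hp.2
    rw [h0] at h1
    change D a b + D b c = D a c
    linarith

section

variable {V : Type} (L : V → List ℕ)

/-- The nodes of the trie. -/
def Nd : Type := {l : List ℕ // ∃ v, l <+: L v}

/-- The root. -/
def rt [Nonempty V] : Nd L := ⟨[], Classical.arbitrary V, List.nil_prefix⟩

/-- The parent of a node. -/
def par (x : Nd L) : Nd L :=
  ⟨x.1.dropLast, x.2.choose, (List.dropLast_prefix _).trans x.2.choose_spec⟩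

/-- The trie. -/
def trie [Nonempty V] : SimpleGraph (Nd L) := SimpleGraph.fromRel fun x y => x ≠ rt L ∧ y = par L x

theorem ne_rt [Nonempty V] {x : Nd L} : x ≠ rt L ↔ x.1 ≠ [] :=
  not_congr ⟨fun h => by rw [h]; rfl, fun h => Subtype.ext h⟩

theorem len_par [Nonempty V] {x : Nd L} (hx : x ≠ rt L) : (par L x).1.length < x.1.length := by
  have h1 := List.length_pos_iff.2 ((ne_rt L).1 hx)
  simp only [par, List.length_dropLast]
  omega

theorem trie_adj [Nonempty V] {x y : Nd L} :
    (trie L).Adj x y ↔ (x ≠ rt L ∧ y = par L x) ∨ (y ≠ rt L ∧ x = par L y) := by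
  unfold trie
  rw [SimpleGraph.fromRel_adj]
  constructor
  · exact fun h => h.2
  · intro h
    refine ⟨?_, h⟩
    rintro rfl
    rcases h with ⟨h1, h2⟩ | ⟨h1, h2⟩
    · have := len_par L h1
      rw [← h2] at this
      exact lt_irrefl _ this
    · have := len_par L h1
      rw [← h2] at this
      exact lt_irrefl _ this

instance [Finite V] : Finite (Nd L) := by
  have h : {l : List ℕ | ∃ v, l <+: L v} ⊆ ⋃ v, {l | l ∈ (L v).inits} := by
    rintro l ⟨v, hv⟩
    exact Set.mem_iUnion.2 ⟨v, (List.mem_inits _ _).2 hv⟩
  exact (Set.Finite.subset (Set.finite_iUnion fun v => List.finite_toSet _) h).to_subtype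

theorem trie_isTree [Finite V] [Nonempty V] : (trie L).IsTree := by
  have : Fintype (Nd L) := Fintype.ofFinite _
  exact H673R2.Ts.isTree_of_parent (rt L) (par L) (fun x => x.1.length) fun _ hx => len_par L hx

/-- The distance of two nodes. -/
noncomputable def D (g : List ℕ → ℝ) (x y : Nd L) : ℝ := g x.1 + g y.1 - 2 * g (lcp x.1 y.1)

theorem D_symm (g : List ℕ → ℝ) (x y : Nd L) : D L g x y = D L g y x := by
  unfold D
  rw [lcp_comm]
  ring

theorem D_self (g : List ℕ → ℝ) (x : Nd L) : D L g x x = 0 := by
  unfold D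
  rw [lcp_self]
  ring

theorem D_par [Nonempty V] (g : List ℕ → ℝ) (x s : Nd L) [Decidable (s.1 <+: x.1)] :
    D L g x s - D L g x (par L s) = if s.1 <+: x.1 then -(g s.1 - g (par L s).1)
      else g s.1 - g (par L s).1 := by
  unfold D
  split_ifs with h
  · rw [lcp_of_prefix h, lcp_of_prefix (s := (par L s).1)
      ((List.dropLast_prefix _).trans h)]
    ring
  · have : lcp x.1 (par L s).1 = lcp x.1 s.1 := (lcp_dropLast h).symm
    rw [this]
    ring

theorem prefix_iff [Nonempty V] {x y s : Nd L} (hxy : (trie L).Adj x y) (h1 : s ≠ x)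
    (h2 : par L s ≠ x) : s.1 <+: x.1 ↔ s.1 <+: y.1 := by
  rcases (trie_adj L).1 hxy with ⟨_, rfl⟩ | ⟨_, rfl⟩
  · exact ⟨fun h => prefix_dropLast h (fun h' => h1 (Subtype.ext h')),
      fun h => h.trans (List.dropLast_prefix _)⟩
  · refine ⟨fun h => h.trans (List.dropLast_prefix _), fun h => prefix_dropLast h ?_⟩
    intro h'
    have : s = y := Subtype.ext h'
    subst this
    exact h2 rfl

theorem D_edge [Nonempty V] (g : List ℕ → ℝ) (x y s s' : Nd L) (hxy : (trie L).Adj x y)
    (hs : (trie L).Adj s s') (h1 : s ≠ x) (h2 : s' ≠ x) :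
    D L g x s' - D L g y s' = D L g x s - D L g y s := by
  classical
  rcases (trie_adj L).1 hs with ⟨_, rfl⟩ | ⟨_, rfl⟩
  · have a1 := D_par L g x s
    have a2 := D_par L g y s
    have a3 := prefix_iff L hxy h1 h2
    by_cases h : s.1 <+: x.1
    · rw [if_pos h] at a1
      rw [if_pos (a3.1 h)] at a2
      linarith
    · rw [if_neg h] at a1
      rw [if_neg (fun h' => h (a3.2 h'))] at a2
      linarith
  · have a1 := D_par L g x s'
    have a2 := D_par L g y s'
    have a3 := prefix_iff L hxy h2 h1
    by_cases h : s'.1 <+: x.1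
    · rw [if_pos h] at a1
      rw [if_pos (a3.1 h)] at a2
      linarith
    · rw [if_neg h] at a1
      rw [if_neg (fun h' => h (a3.2 h'))] at a2
      linarith

/-- The node of a leaf. -/
def nd (v : V) : Nd L := ⟨L v, v, List.prefix_refl _⟩

theorem leaf_iff [Nonempty V] {K : ℕ} (hlen : ∀ v, (L v).length = K + 1)
    (hroot : ∃ u v, (L u).head? ≠ (L v).head?) (x : Nd L) :
    (∃! y, (trie L).Adj x y) ↔ ∃ v, nd L v = x := by
  have hx : x.1.length ≤ K + 1 := by
    obtain ⟨v, hv⟩ := x.2
    rw [← hlen v]
    exact hv.length_le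
  constructor
  · rintro ⟨y, _, hy⟩
    by_cases hK : x.1.length = K + 1
    · obtain ⟨v, hv⟩ := x.2
      refine ⟨v, Subtype.ext ?_⟩
      exact (hv.eq_of_length (by rw [hK, hlen])).symm
    · exfalso
      -- children
      have child : ∀ v, x.1 <+: L v → ∃ z : Nd L, z.1 = (L v).take (x.1.length + 1) ∧
          z ≠ rt L ∧ x = par L z := by
        intro v hv
        have hl : ((L v).take (x.1.length + 1)).length = x.1.length + 1 := by
          rw [List.length_take, hlen]
          omega
        refine ⟨⟨(L v).take (x.1.length + 1), v, List.take_prefix _ _⟩, rfl, ?_, ?_⟩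
        · refine (ne_rt L).2 fun h => ?_
          change (L v).take (x.1.length + 1) = [] at h
          rw [h] at hl
          simp at hl
        · apply Subtype.ext
          have h1 : (par L ⟨(L v).take (x.1.length + 1), v, List.take_prefix _ _⟩).1 =
              (L v).take x.1.length := by
            change ((L v).take (x.1.length + 1)).dropLast = _
            rw [List.dropLast_eq_take, hl, List.take_take]
            congr 1
            omega
          rw [h1]
          exact List.prefix_iff_eq_take.1 hv
      by_cases hr : x = rt L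
      · obtain ⟨u, v, huv⟩ := hroot
        have hxn : x.1 = [] := by rw [hr]; rfl
        obtain ⟨z, hz, hz1, hz2⟩ := child u (by rw [hxn]; exact List.nil_prefix)
        obtain ⟨z', hz', hz1', hz2'⟩ := child v (by rw [hxn]; exact List.nil_prefix)
        have e1 := hy z ((trie_adj L).2 (Or.inr ⟨hz1, hz2⟩))
        have e2 := hy z' ((trie_adj L).2 (Or.inr ⟨hz1', hz2'⟩))
        have e3 : z.1 = z'.1 := by rw [e1, e2]
        rw [hz, hz', hxn] at e3
        have h1 := hlen u
        have h2 := hlen v
        apply huv
        cases hu : L u with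
        | nil => rw [hu] at h1; simp at h1
        | cons a l =>
          cases hv : L v with
          | nil => rw [hv] at h2; simp at h2
          | cons b l' =>
            rw [hu, hv] at e3
            simpa using e3
      · obtain ⟨v, hv⟩ := x.2
        obtain ⟨z, hz, hz1, hz2⟩ := child v hv
        have e1 := hy z ((trie_adj L).2 (Or.inr ⟨hz1, hz2⟩))
        have e2 := hy (par L x) ((trie_adj L).2 (Or.inl ⟨hr, rfl⟩))
        have h1 := len_par L hz1
        have h2 := len_par L hr
        rw [← hz2] at h1
        rw [← e2] at e1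
        rw [e1] at h1
        omega
  · rintro ⟨v, rfl⟩
    have hr : nd L v ≠ rt L := by
      rw [ne_rt]
      intro h
      have := hlen v
      change L v = [] at h
      rw [h] at this
      simp at this
    refine ⟨par L (nd L v), (trie_adj L).2 (Or.inl ⟨hr, rfl⟩), ?_⟩
    intro y hy
    rcases (trie_adj L).1 hy with ⟨_, h⟩ | ⟨h1, h⟩
    · exact h
    · exfalso
      have h2 := len_par L h1
      rw [← h] at h2
      have h3 : (nd L v).1.length = K + 1 := hlen v
      obtain ⟨w, hw⟩ := y.2
      have h4 := hw.length_le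
      rw [hlen] at h4
      omega

/-- A trie with words of equal length as leaves gives a weighted tree. -/
theorem exists_wtree [Finite V] {K : ℕ} (hlen : ∀ v, (L v).length = K + 1)
    (hinj : Function.Injective L) (hroot : ∃ u v, (L u).head? ≠ (L v).head?) (g : List ℕ → ℝ)
    (hg : ∀ l, l ≠ [] → (∃ v, l <+: L v) → g l.dropLast < g l) :
    ∃ T : WTree V, ∀ u v, T.dist u v = g (L u) + g (L v) - 2 * g (lcp (L u) (L v)) := by
  have hne : Nonempty V := ⟨hroot.choose⟩
  have hbij : Function.Bijective (fun v => (⟨nd L v, (leaf_iff L hlen hroot _).2 ⟨v, rfl⟩⟩ :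
      {x : Nd L // ∃! y, (trie L).Adj x y})) := by
    constructor
    · intro u v huv
      have h1 := congrArg (fun z => z.1.1) huv
      exact hinj h1
    · rintro ⟨x, hx⟩
      obtain ⟨v, hv⟩ := (leaf_iff L hlen hroot x).1 hx
      exact ⟨v, Subtype.ext hv⟩
  refine ⟨⟨Nd L, inferInstance, trie L, trie_isTree L, Sym2.lift ⟨D L g, D_symm L g⟩, ?_,
    Equiv.ofBijective _ hbij⟩, ?_⟩
  · intro e
    induction e using Sym2.ind with
    | _ x y =>
      intro h
      rw [SimpleGraph.mem_edgeSet] at h
      change 0 < D L g x y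
      have aux : ∀ z : Nd L, z ≠ rt L → 0 < D L g z (par L z) := by
        intro z hz
        have h1 : lcp z.1 (par L z).1 = (par L z).1 := lcp_of_prefix (List.dropLast_prefix _)
        have h2 : g (par L z).1 < g z.1 := hg z.1 ((ne_rt L).1 hz) z.2
        unfold D
        rw [h1]
        linarith
      rcases (trie_adj L).1 h with ⟨h1, rfl⟩ | ⟨h1, rfl⟩
      · exact aux x h1
      · rw [D_symm]
        exact aux y h1
  · intro u v
    exact path_weight (D L g) (D_symm L g) (D_self L g) (D_edge L g) _
      (treePath_isPath _ _ _)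

end

end Pool.Agent.H255R3.PCG
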