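import Pool.Agent.H255R3.PCG.Sound
import Pool.Agent.H255R3.PCG.Trie

/-!
# Completeness of the reduction

Every vertex gets a word of length five and an integer.  The distance of two vertices is `40` plus
the two integers minus twice the length of the longest common prefix of the words.
-/

namespace Pool.Agent.H255R3.PCG

open Pool.Agent.NPC Pool.Agent.NPC.R671

/-- The value of a pair of positions. -/
def val (p q : List ℕ × ℤ) : ℤ := p.2 + q.2 - 2 * (lcp p.1 q.1).length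

/-- The positions of the vertices of the gadget of a clause; the second argument tells whether the
vertex is in the chosen pair. -/
def posP : Bool → Bool → List ℕ × ℤ
  | false, true => ([0, 0, 0, 0, 0], 1)
  | false, false => ([1, 1, 1, 0, 0], -1)
  | true, true => ([1, 0, 0, 0, 0], 1)
  | true, false => ([0, 1, 1, 0, 0], -1)

/-- The positions of the vertices of the gadget of a variable. -/
def posQ : Bool → Bool → List ℕ × ℤ
  | false, true => ([0, 1, 0, 0, 0], 2)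
  | false, false => ([0, 2, 0, 0, 0], 0)
  | true, true => ([0, 2, 0, 0, 0], 2)
  | true, false => ([0, 1, 0, 0, 0], 0)

/-- The positions of the vertices of a chain, for all states of the two gadgets at its ends. -/
def chainTab : Bool → Bool → Bool → Bool → List (List ℕ × ℤ)
  | true, true, true, false => [([0, 1, 1, 0, 0], 0), ([0, 1, 2, 0, 0], 0), ([0, 1, 2, 1, 0], 3), ([0, 1, 1, 1, 0], 3),
      ([0, 1, 1, 1, 1], 5), ([0, 1, 1, 1, 1], 5), ([0, 1, 1, 1, 2], 5), ([0, 1, 1, 1, 2], 5),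
      ([0, 1, 2, 1, 1], 5), ([0, 1, 2, 1, 1], 5), ([0, 1, 2, 1, 2], 5), ([0, 1, 2, 1, 2], 5)]
  | true, true, false, true => [([0, 1, 0, 0, 0], 0), ([0, 2, 1, 0, 0], 0), ([0, 2, 1, 1, 0], 3), ([0, 1, 0, 0, 0], 1),
      ([0, 0, 0, 0, 0], 1), ([0, 0, 1, 0, 0], 2), ([0, 1, 0, 1, 0], 5), ([0, 1, 0, 1, 0], 5),
      ([0, 2, 1, 1, 1], 5), ([0, 2, 1, 1, 1], 5), ([0, 2, 1, 1, 2], 5), ([0, 2, 1, 1, 2], 5)]
  | true, true, false, false => [([0, 1, 1, 0, 0], 0), ([0, 1, 2, 0, 0], 0), ([0, 1, 2, 1, 0], 3), ([0, 1, 1, 1, 0], 3),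
      ([0, 1, 1, 1, 1], 5), ([0, 1, 1, 1, 1], 5), ([0, 1, 1, 1, 2], 5), ([0, 1, 1, 1, 2], 5),
      ([0, 1, 2, 1, 1], 5), ([0, 1, 2, 1, 1], 5), ([0, 1, 2, 1, 2], 5), ([0, 1, 2, 1, 2], 5)]
  | true, false, true, true => [([0, 0, 0, 1, 0], 4), ([0, 0, 1, 0, 0], 3), ([0, 0, 1, 0, 0], 1), ([0, 0, 0, 0, 0], 0),
      ([0, 0, 0, 1, 0], 5), ([0, 0, 0, 1, 0], 5), ([0, 0, 0, 1, 1], 5), ([0, 0, 0, 1, 1], 5),
      ([0, 0, 0, 0, 0], 2), ([0, 0, 2, 0, 0], 2), ([0, 0, 1, 1, 0], 4), ([0, 0, 1, 1, 1], 4)]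
  | true, false, true, false => [([0, 0, 1, 0, 0], 3), ([0, 0, 2, 0, 0], 3), ([0, 0, 2, 0, 0], 1), ([0, 0, 1, 0, 0], 1),
      ([0, 0, 0, 0, 0], 2), ([0, 0, 2, 0, 0], 2), ([0, 0, 1, 1, 0], 4), ([0, 0, 1, 1, 1], 4),
      ([0, 0, 0, 0, 0], 2), ([0, 0, 1, 0, 0], 2), ([0, 0, 2, 1, 0], 4), ([0, 0, 2, 1, 1], 4)]
  | true, false, false, true => [([0, 0, 1, 0, 0], 3), ([0, 0, 2, 0, 0], 3), ([0, 0, 2, 0, 0], 1), ([0, 0, 1, 0, 0], 1),
      ([0, 0, 0, 0, 0], 2), ([0, 0, 2, 0, 0], 2), ([0, 0, 1, 1, 0], 4), ([0, 0, 1, 1, 1], 4),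
      ([0, 0, 0, 0, 0], 2), ([0, 0, 1, 0, 0], 2), ([0, 0, 2, 1, 0], 4), ([0, 0, 2, 1, 1], 4)]
  | true, false, false, false => [([0, 0, 0, 1, 0], 4), ([0, 0, 0, 2, 0], 4), ([0, 0, 0, 2, 0], 2), ([0, 0, 0, 1, 0], 2),
      ([0, 0, 0, 0, 0], 3), ([0, 0, 0, 2, 0], 3), ([0, 0, 0, 1, 1], 5), ([0, 0, 0, 1, 1], 5),
      ([0, 0, 0, 0, 0], 3), ([0, 0, 0, 1, 0], 3), ([0, 0, 0, 2, 1], 5), ([0, 0, 0, 2, 1], 5)]
  | false, true, true, true => [([0, 0, 0, 0, 0], 0), ([1, 0, 1, 0, 0], 2), ([1, 0, 0, 0, 0], -1), ([0, 0, 0, 0, 0], -1),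
      ([0, 0, 1, 0, 0], 4), ([0, 0, 1, 0, 0], 5), ([0, 0, 1, 1, 0], 4), ([0, 0, 1, 1, 0], 5),
      ([1, 0, 1, 0, 1], 5), ([1, 0, 1, 0, 1], 5), ([1, 0, 1, 0, 2], 5), ([1, 0, 1, 0, 2], 5)]
  | false, true, true, false => [([0, 0, 0, 0, 0], 0), ([0, 1, 1, 0, 0], 0), ([0, 1, 1, 1, 0], 3), ([0, 0, 0, 0, 0], 1),
      ([0, 0, 0, 1, 0], 5), ([0, 0, 0, 1, 0], 5), ([0, 0, 0, 1, 1], 5), ([0, 0, 0, 1, 1], 5),
      ([0, 1, 1, 1, 1], 5), ([0, 1, 1, 1, 1], 5), ([0, 1, 1, 1, 2], 5), ([0, 1, 1, 1, 2], 5)]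
  | false, true, false, true => [([0, 0, 0, 0, 0], 0), ([0, 2, 1, 0, 0], 0), ([0, 2, 1, 1, 0], 3), ([0, 0, 0, 0, 0], 1),
      ([0, 0, 0, 1, 0], 5), ([0, 0, 0, 1, 0], 5), ([0, 0, 0, 1, 1], 5), ([0, 0, 0, 1, 1], 5),
      ([0, 2, 1, 1, 1], 5), ([0, 2, 1, 1, 1], 5), ([0, 2, 1, 1, 2], 5), ([0, 2, 1, 1, 2], 5)]
  | false, true, false, false => [([0, 0, 0, 0, 0], 0), ([0, 0, 1, 0, 0], 0), ([0, 0, 1, 1, 0], 3), ([0, 0, 0, 1, 0], 3),
      ([0, 0, 0, 1, 1], 5), ([0, 0, 0, 1, 1], 5), ([0, 0, 0, 1, 2], 5), ([0, 0, 0, 1, 2], 5),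
      ([0, 0, 1, 1, 1], 5), ([0, 0, 1, 1, 1], 5), ([0, 0, 1, 1, 2], 5), ([0, 0, 1, 1, 2], 5)]
  | false, false, true, true => [([0, 0, 0, 0, 0], 2), ([0, 2, 1, 0, 0], 2), ([0, 2, 1, 0, 0], 1), ([0, 0, 1, 0, 0], -1),
      ([0, 0, 0, 0, 1], 5), ([0, 0, 0, 0, 1], 5), ([0, 0, 0, 0, 2], 5), ([0, 0, 0, 0, 2], 5),
      ([0, 0, 0, 0, 0], 0), ([0, 1, 0, 0, 0], 1), ([0, 2, 1, 1, 0], 4), ([0, 2, 1, 1, 0], 5)]
  | false, false, true, false => [([1, 0, 0, 0, 0], 2), ([1, 2, 0, 0, 0], 2), ([1, 2, 1, 0, 0], -1), ([1, 0, 1, 0, 0], -1),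
      ([1, 0, 0, 0, 1], 5), ([1, 0, 0, 0, 1], 5), ([1, 0, 0, 0, 2], 5), ([1, 0, 0, 0, 2], 5),
      ([1, 2, 0, 0, 1], 5), ([1, 2, 0, 0, 1], 5), ([1, 2, 0, 0, 2], 5), ([1, 2, 0, 0, 2], 5)]
  | false, false, false, true => [([1, 0, 0, 0, 0], 2), ([1, 2, 0, 0, 0], 2), ([1, 2, 1, 0, 0], -1), ([1, 0, 1, 0, 0], -1),
      ([1, 0, 0, 0, 1], 5), ([1, 0, 0, 0, 1], 5), ([1, 0, 0, 0, 2], 5), ([1, 0, 0, 0, 2], 5),
      ([1, 2, 0, 0, 1], 5), ([1, 2, 0, 0, 1], 5), ([1, 2, 0, 0, 2], 5), ([1, 2, 0, 0, 2], 5)]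
  | false, false, false, false => [([1, 0, 0, 0, 0], 2), ([1, 2, 0, 0, 0], 2), ([1, 2, 0, 0, 0], 0), ([1, 0, 0, 0, 0], 0),
      ([0, 0, 0, 0, 0], -1), ([1, 1, 0, 0, 0], 1), ([1, 0, 0, 1, 0], 5), ([1, 0, 0, 1, 0], 5),
      ([0, 0, 0, 0, 0], -1), ([1, 0, 0, 0, 0], 1), ([1, 2, 0, 1, 0], 5), ([1, 2, 0, 1, 0], 5)]
  | true, true, true, true => []

/-- The number of a vertex of a chain. -/
def code : Sub → ℕ
  | Sum.inl (w, i) => 2 * w.toNat + i.toNat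
  | Sum.inr (w, s, b) => 4 + 4 * w.toNat + 2 * s.toNat + b.toNat

/-- The position of a vertex of a chain. -/
def posC (s t : Bool × Bool) (x : Sub) : List ℕ × ℤ :=
  (chainTab s.1 s.2 t.1 t.2).getD (code x) ([0, 0, 0, 0, 0], 0)

/-- Not both ends are in the chosen pair. -/
def okState (s t : Bool × Bool) : Bool := !(s.1 && s.2 && t.1 && t.2)

def okE (p q : List ℕ × ℤ) : Bool := decide (-1 ≤ val p q ∧ val p q ≤ 1)

def okS (p q : List ℕ × ℤ) : Bool := decide (val p q ≤ -2 ∨ 2 ≤ val p q)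

set_option maxRecDepth 20000 in
theorem check_P : ∀ s r : Bool, okE (posP s r) (posP s (!r)) = true := by decide

set_option maxRecDepth 20000 in
theorem check_Q : ∀ s r : Bool, okE (posQ s r) (posQ s (!r)) = true := by decide

set_option maxRecDepth 20000 in
theorem check_SP : ∀ s r r' : Bool, okS (posP s r) (posP (!s) r') = true := by decide

set_option maxRecDepth 20000 in
theorem check_SQ : ∀ s r r' : Bool, okS (posQ s r) (posQ (!s) r') = true := by decide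

set_option maxRecDepth 20000 in
theorem check_CP : ∀ (s t : Bool × Bool) (i b : Bool), okState s t = true →
    okE (posC s t (Sum.inl (false, i))) (posP b (if b then s.2 else s.1)) = true := by decide

set_option maxRecDepth 20000 in
theorem check_CQ : ∀ (s t : Bool × Bool) (i b : Bool), okState s t = true →
    okE (posC s t (Sum.inl (true, i))) (posQ b (if b then t.2 else t.1)) = true := by decide

set_option maxRecDepth 20000 in
theorem check_qr : ∀ (s t : Bool × Bool) (w i : Bool), okState s t = true →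
    okE (posC s t (Sum.inl (w, i))) (posC s t (Sum.inl (!w, i))) = true := by decide

set_option maxRecDepth 20000 in
theorem check_T : ∀ (s t : Bool × Bool) (w x b : Bool), okState s t = true →
    okE (posC s t (Sum.inr (w, x, b))) (posC s t (Sum.inr (w, x, !b))) = true := by decide

set_option maxRecDepth 20000 in
theorem check_Tq : ∀ (s t : Bool × Bool) (w x b w' : Bool), okState s t = true →
    okE (posC s t (Sum.inr (w, x, b))) (posC s t (Sum.inl (w', w != w'))) = true := by decide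

set_option maxRecDepth 20000 in
theorem check_Sq : ∀ (s t : Bool × Bool) (w w' i : Bool), okState s t = true →
    okS (posC s t (Sum.inl (w, i))) (posC s t (Sum.inl (w', !i))) = true := by decide

set_option maxRecDepth 20000 in
theorem check_ST : ∀ (s t : Bool × Bool) (w x b b' : Bool), okState s t = true →
    okS (posC s t (Sum.inr (w, x, b))) (posC s t (Sum.inr (w, !x, b'))) = true := by decide

end Pool.Agent.H255R3.PCG
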